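import Pool.Agent.Lib.MP_361a6f_ag.FL.CW.Stat
import Pool.Agent.Lib.MP_361a6f_ag.FL.CV.Defs

/-!
# Products of abelian varieties and of varieties with only middle cohomology: the rows
-/

open CategoryTheory AlgebraicGeometry MonoidalCategory CartesianMonoidalCategory

universe u v w w'

set_option autoImplicit false

namespace Pool.Agent.Lib.MP_361a6f_ag.FL.CW

open Pool.Agent.Lib.MP_361a6f_ag.H3 Pool.Agent.Lib.MP_361a6f_ag.SQ
  Pool.Agent.Lib.MP_361a6f_ag.PP Pool.Agent.Lib.MP_361a6f_ag.FL.PTG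

/-- the hypotheses on the factors -/
structure Fac {k : Type u} [Field k] {m : ℕ} (W : CohomologyData.{u, 0, w} k ℂ)
    (𝒱 : VarietyClass k) (X : Fin m → Sch k) (n : Fin m → ℕ) (ξ : ∀ a, W.coh (X a)) (o : Fin m) :
    Prop where
  div : ∀ a, PositiveDivisor W (X a) (n a) (ξ a)
  mid : ∀ a, a ≠ o → EQ.Mid W 𝒱 (X o) (n o) (ξ o) (X a) (n a) (ξ a)

/-- the isometry on the letters of one type -/
def Pc {k : Type u} [Field k] {m : ℕ} {W : CohomologyData.{u, 0, w} k ℂ} {𝒱 : VarietyClass k}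
    (H : Host W 𝒱 m) (o a : Fin m) (d : ℕ) : Prop :=
  ∃ T : Matrix H.I H.I ℂ, T ∈ Submodule.span ℝ {M | ∃ z, z ∈ H.At 2 ∧ M = E.opM H.D z} ∧
    (∀ x i, T x i ≠ 0 → H.D.typ x = (o, d) ∧ H.D.typ i = (a, d)) ∧
    ∀ i j, H.D.typ i = (a, d) → H.D.typ j = (a, d) → (T.transpose * Psi H.D * T) i j = Psi H.D i j

/-- Row CM: the piece of the middle degree. -/
def MStatement : Prop :=
  ∀ {k : Type u} [Field k] {m : ℕ} {W : CohomologyData.{u, 0, w} k ℂ} {𝒱 : VarietyClass k}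
    (H : Host W 𝒱 m) {o : Fin m} (_ : Fac W 𝒱 H.X H.n H.ξ o) (a : Fin m) (_ : a ≠ o),
    Pc H o a (H.n a)

/-- Row CC: the isometry from its pieces (the identity on the factor `o`). -/
def CStatement : Prop :=
  ∀ {k : Type u} [Field k] {m : ℕ} {W : CohomologyData.{u, 0, w} k ℂ} {𝒱 : VarietyClass k}
    (H : Host W 𝒱 m) {o : Fin m} (_ : Fac W 𝒱 H.X H.n H.ξ o),
    ∃ T : Matrix H.I H.I ℂ, CV.Iso H o T

end Pool.Agent.Lib.MP_361a6f_ag.FL.CW
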