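import Pool.Agent.Lib.MP_361a6f_ag.FL.CV.CC0
import Pool.Agent.Lib.MP_361a6f_ag.FL.CV.CC1
import Pool.Agent.Lib.MP_361a6f_ag.FL.CW.Defs

/-!
# Products with varieties that have only middle cohomology: the pieces outside of the middle degree
-/

open CategoryTheory AlgebraicGeometry MonoidalCategory CartesianMonoidalCategory

universe u v w w'

set_option autoImplicit false

namespace Pool.Agent.Lib.MP_361a6f_ag.FL.CW

open Pool.Agent.Lib.MP_361a6f_ag.H3 Pool.Agent.Lib.MP_361a6f_ag.SQ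
  Pool.Agent.Lib.MP_361a6f_ag.PP Pool.Agent.Lib.MP_361a6f_ag.FL.PTG

/-- The pieces outside of the middle degree. -/
theorem cp {k : Type u} [Field k] {m : ℕ} {W : CohomologyData.{u, 0, w} k ℂ} {𝒱 : VarietyClass k}
    (H : Host W 𝒱 m) {o a : Fin m} (ho : PositiveDivisor W (H.X o) (H.n o) (H.ξ o))
    (ha : PositiveDivisor W (H.X a) (H.n a) (H.ξ a))
    (hM : OnlyMiddle W (H.X a) (H.n a) (H.ξ a)) (hle : H.n a ≤ H.n o) {d : ℕ} (hd : d ≠ H.n a) :
    ∃ T : Matrix H.I H.I ℂ, T ∈ Submodule.span ℝ {M | ∃ z, z ∈ H.At 2 ∧ M = E.opM H.D z} ∧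
      (∀ x i, T x i ≠ 0 → H.D.typ x = (o, d) ∧ H.D.typ i = (a, d)) ∧
      ∀ i j, H.D.typ i = (a, d) → H.D.typ j = (a, d) →
        (T.transpose * Psi H.D * T) i j = Psi H.D i j := by
  -- no letters: the zero matrix
  have zero : (∀ i, H.D.typ i ≠ (a, d)) →
      ∃ T : Matrix H.I H.I ℂ, T ∈ Submodule.span ℝ {M | ∃ z, z ∈ H.At 2 ∧ M = E.opM H.D z} ∧
      (∀ x i, T x i ≠ 0 → H.D.typ x = (o, d) ∧ H.D.typ i = (a, d)) ∧
      ∀ i j, H.D.typ i = (a, d) → H.D.typ j = (a, d) →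
        (T.transpose * Psi H.D * T) i j = Psi H.D i j := fun h =>
    ⟨0, zero_mem _, fun x i hx => absurd rfl hx, fun i j hi _ => absurd hi (h i)⟩
  by_cases h2 : Even d ∧ d ≤ 2 * H.n a
  · obtain ⟨⟨s, hs⟩, hd2⟩ := h2
    obtain rfl : d = 2 * s := by omega
    have hsa : s ≤ H.n a := by omega
    obtain ⟨ro, hro, hUU⟩ := CV.CC0.psi_pow H.hW (H.mem o) ho (H.lam o) (s := s)
      (hsa.trans hle)
    obtain ⟨ra, hra, hVV⟩ := CV.CC0.psi_pow H.hW (H.mem a) ha (H.lam a) (s := s) hsa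
    have halgo : H.ξ o ^ s ∈ W.alg (H.X o) s := H.hW.pow_alg (H.mem o) ho.1 s
    have halga : H.ξ a ^ s ∈ W.alg (H.X a) s := H.hW.pow_alg (H.mem a) ha.1 s
    refine CV.CC0.iso_of H (ge H) (at_ H) (even_two_mul s) (alg_le_tot H.hW _ _ halgo)
      (alg_le_tot H.hW _ _ halga) (H.hW.alg_gr (H.mem o) halgo)
      (H.hW.alg_gr (H.mem a) halga) hro hra hUU hVV fun x hx => ?_
    rcases hM.2 (2 * s) x hd hx with h | ⟨r, c, h1, h⟩
    · exact ⟨0, by rw [h, zero_smul]⟩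
    · obtain rfl : r = s := by omega
      exact ⟨c, h⟩
  · refine zero fun i hi => ?_
    have hg : H.e a i ∈ W.gr (H.X a) d := by
      have := H.e_gr a i
      rwa [hi] at this
    have h0 : H.e a i = 0 := by
      rcases hM.2 d (H.e a i) hd hg with h | ⟨r, c, h1, h⟩
      · exact h
      · have hr : H.n a < r := by
          by_contra hr
          exact h2 ⟨⟨r, by omega⟩, by omega⟩
        have h3 : H.ξ a ^ r = 0 := H.hW.top_gr (H.mem a)
          (H.hW.alg_gr (H.mem a) (H.hW.pow_alg (H.mem a) ha.1 r)) (by omega)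
        rw [h]
        show c • H.ξ a ^ r = 0
        rw [h3, smul_zero]
    have h4 := CV.cd_e H a i i
    rw [h0, map_zero, if_pos ⟨by rw [hi], rfl⟩] at h4
    exact zero_ne_one h4

/-- Row CP: the pieces outside of the middle degree. -/
theorem low {k : Type u} [Field k] {m : ℕ} {W : CohomologyData.{u, 0, w} k ℂ}
    {𝒱 : VarietyClass k} (H : Host W 𝒱 m) {o : Fin m} (hF : Fac W 𝒱 H.X H.n H.ξ o) (a : Fin m)
    (ha : a ≠ o) (d : ℕ) (hd : d ≠ H.n a) : Pc H o a d :=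
  cp H (hF.div o) (hF.div a) (hF.mid a ha).mid (hF.mid a ha).le hd

end Pool.Agent.Lib.MP_361a6f_ag.FL.CW
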