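import Pool.Agent.Lib.MP_361a6f_ag.FL.CV.CC1

/-!
# The operator of a class on the primitive classes of the middle degree, in coordinates (row MA)
-/

open CategoryTheory AlgebraicGeometry MonoidalCategory CartesianMonoidalCategory

universe u v w w'

set_option autoImplicit false
set_option linter.unusedSectionVars false

namespace Pool.Agent.Lib.MP_361a6f_ag.FL.CW.A74

open Pool.Agent.Lib.MP_361a6f_ag.H3 Pool.Agent.Lib.MP_361a6f_ag.SQ
  Pool.Agent.Lib.MP_361a6f_ag.IP2 Pool.Agent.Lib.MP_361a6f_ag.PP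
  Pool.Agent.Lib.MP_361a6f_ag.FL.CV

noncomputable section

theorem sgn_sq (i : ℕ) : PP.sgn i * PP.sgn i = 1 := by
  rw [PP.sgn, ← pow_add, ← two_mul, pow_mul]
  norm_num

variable {k : Type u} [Field k] {m : ℕ} {W : CohomologyData.{u, 0, w} k ℂ} {𝒱 : VarietyClass k}
  (H : Host W 𝒱 m)

/-- the push-forward of an exterior product -/
theorem push_ext (hW : IsWeilCohomology W 𝒱) {X Y : Sch k} {d n : ℕ} (hY : 𝒱.mem Y d)
    (hX : 𝒱.mem X n) (y : W.coh Y) (x : W.coh X) :
    W.push (snd Y X) (W.pull (fst Y X) y * W.pull (snd Y X) x) = W.tr Y y • x := by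
  have hYX := 𝒱.prod hY hX
  rw [← sub_eq_zero]
  refine hW.duality hX _ (fun v => ?_)
  rw [sub_mul, map_sub, hW.push_adj hYX hX, mul_assoc, ← map_mul, hW.kunneth_tr hY hX,
    smul_mul_assoc, map_smul, smul_eq_mul, sub_self]

/-- `ψ` on the primitive classes of the middle degree -/
theorem psi_mid (a : Fin m) {v : W.coh (H.X a)} (hv : v ∈ W.gr (H.X a) (H.n a))
    (hp : H.ξ a * v = 0) (w : W.coh (H.X a)) :
    psi W (H.X a) (H.ξ a) (H.Lam a) (H.lam a).slm.internal w v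
      = PP.sgn (H.n a) * W.tr (H.X a) (w * v) := by
  have hΛ : H.Lam a v = 0 := by
    refine SL2.prim (H.lam a).slm (H.n a) v le_rfl hv ?_
    rw [Nat.sub_self, zero_add, pow_one]
    exact hp
  have h2 : star (H.lam a).slm.internal (Lop W (H.X a) (H.ξ a)) (H.Lam a) v
      = (PP.sgn (H.n a) * ((H.n a - H.n a).factorial : ℂ)⁻¹) •
        (Lop W (H.X a) (H.ξ a) ^ (H.n a - H.n a)) v := by
    rw [PP.star, Module.End.mul_apply, gop_apply _ _ hv, map_smul,
      (wey (H.lam a).slm).2.2.2.2 _ v le_rfl hv hΛ, smul_smul]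
  rw [psi, h2, Nat.sub_self, pow_zero, Module.End.one_apply, Nat.factorial_zero, Nat.cast_one,
    inv_one, mul_one, mul_smul_comm, map_smul, smul_eq_mul]

/-- `ψ` with a basis vector, in coordinates -/
theorem psi_e (a : Fin m) (v : W.coh (H.X a)) {y : H.I} (hy : (H.D.typ y).1 = a) :
    psi W (H.X a) (H.ξ a) (H.Lam a) (H.lam a).slm.internal (H.e a y) v
      = H.D.s y * crd H a (H.D.τ y) v := by
  conv_lhs => rw [cd_exp H a v]
  rw [psi, map_sum, Finset.mul_sum, map_sum, Finset.sum_eq_single (H.D.τ y)]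
  · rw [map_smul, mul_smul_comm, map_smul, smul_eq_mul]
    have h8 := H.e_psi a y (H.D.τ y) hy (by rw [H.D.typ_τ, hy])
    rw [if_pos rfl, psi] at h8
    rw [h8]
    ring
  · intro x _ hx
    rw [map_smul, mul_smul_comm, map_smul, smul_eq_mul]
    by_cases hxa : (H.D.typ x).1 = a
    · have h8 := H.e_psi a y x hy hxa
      rw [if_neg hx, psi] at h8
      rw [h8, mul_zero]
    · rw [cd_off H a hxa, zero_mul]
  · intro h
    exact absurd (Finset.mem_univ _) h

/-- the traces of the products with the basis vectors -/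
theorem tr_mid (a : Fin m) {v : W.coh (H.X a)} (hv : v ∈ W.gr (H.X a) (H.n a))
    (hp : H.ξ a * v = 0) (y : H.I) :
    W.tr (H.X a) (v * H.e a y)
      = PP.sgn (H.n a) * (H.D.s (H.D.τ y) * crd H a (H.D.τ y) v) := by
  by_cases h1 : (H.D.typ y).1 = a
  swap
  · rw [H.e_ne a y h1, mul_zero, map_zero, cd_off H a (by rw [H.D.typ_τ]; exact h1), mul_zero,
      mul_zero]
  by_cases h2 : (H.D.typ y).2 = H.n a
  swap
  · rw [cd_gr H a (by rw [H.D.typ_τ]; exact h2) hv, mul_zero, mul_zero]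
    exact H.hW.tr_gr (H.mem a) (H.hW.mul_gr (H.mem a) hv (H.e_gr a y)) (by omega)
  have h3 := psi_mid H a hv hp (H.e a y)
  rw [psi_e H a v h1] at h3
  have hy : H.e a y ∈ W.gr (H.X a) (H.n a) := h2 ▸ H.e_gr a y
  have h4 : W.tr (H.X a) (v * H.e a y)
      = (-1) ^ (H.n a * H.n a) * W.tr (H.X a) (H.e a y * v) := by
    have h5 : v * H.e a y = ((-1 : ℂ) ^ (H.n a * H.n a)) • (H.e a y * v) :=
      H.hW.graded.comm (H.mem a) hv hy
    rw [h5, map_smul, smul_eq_mul]
  have h6 : H.D.s (H.D.τ y) = (-1) ^ (H.n a * H.n a) * H.D.s y := by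
    rcases Nat.even_or_odd (H.n a) with he | ho
    · have h7 := H.D.even_τ y (by
        rw [H.odd_iff, h2]
        exact Nat.not_odd_iff_even.2 he)
      rw [h7.1, (he.mul_left (H.n a)).neg_one_pow, one_mul]
    · have h7 := H.D.odd_τ y (by
        rw [H.odd_iff, h2]
        exact ho)
      rw [h7.2, (ho.mul ho).neg_one_pow, neg_one_mul]
  rw [h4, h6]
  linear_combination (-(-1 : ℂ) ^ (H.n a * H.n a) * W.tr (H.X a) (H.e a y * v)) *
    sgn_sq (H.n a) - (PP.sgn (H.n a) * (-1 : ℂ) ^ (H.n a * H.n a)) * h3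

/-- the tensor of a class on the product of two factors -/
def T2 (a o : Fin m) : W.coh (H.X a ⊗ H.X o) →ₗ[ℂ] Ten H.I 2 := H.tc (.prod (.leaf a) (.leaf o))

theorem T2_off (a o : Fin m) (z : W.coh (H.X a ⊗ H.X o)) {y x : H.I}
    (hx : (H.D.typ x).1 ≠ o) : T2 H a o z ![y, x] = 0 := by
  refine (ge H).tc_off (.prod (.leaf a) (.leaf o)) z ![y, x] ⟨(1 : Fin 2), ?_⟩
  exact hx

/-- **Row MA.** -/
theorem ma (o a : Fin m) (z : W.coh (H.X a ⊗ H.X o)) {v : W.coh (H.X a)}
    (hv : v ∈ W.gr (H.X a) (H.n a)) (hp : H.ξ a * v = 0) (x : H.I) :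
    crd H o x (W.push (snd (H.X a) (H.X o)) (W.pull (fst (H.X a) (H.X o)) v * z))
      = PP.sgn (H.n a) * ∑ y, T2 H a o z ![y, x] * H.D.s (H.D.τ y) * crd H a (H.D.τ y) v := by
  have hexp : z = ∑ w : Fin 2 → H.I, T2 H a o z w •
      (W.pull (fst (H.X a) (H.X o)) (H.e a (w 0)) * W.pull (snd (H.X a) (H.X o)) (H.e o (w 1))) :=
    (ge H).expand (.prod (.leaf a) (.leaf o)) z
  have h1 : W.push (snd (H.X a) (H.X o)) (W.pull (fst (H.X a) (H.X o)) v * z)
      = ∑ w : Fin 2 → H.I, (T2 H a o z w * W.tr (H.X a) (v * H.e a (w 0))) • H.e o (w 1) := by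
    conv_lhs => rw [hexp]
    rw [Finset.mul_sum, map_sum]
    refine Finset.sum_congr rfl fun w _ => ?_
    rw [mul_smul_comm, map_smul, ← mul_assoc, ← map_mul, push_ext H.hW (H.mem a) (H.mem o),
      smul_smul]
  rw [h1, map_sum, ← (finTwoArrowEquiv H.I).symm.sum_comp, Fintype.sum_prod_type, Finset.mul_sum]
  refine Finset.sum_congr rfl fun y _ => ?_
  by_cases hx : (H.D.typ x).1 = o
  · rw [Finset.sum_eq_single x]
    · rw [map_smul, smul_eq_mul]
      have h2 : crd H o x (H.e o (((finTwoArrowEquiv H.I).symm (y, x)) 1)) = 1 := by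
        rw [cd_e]
        exact if_pos ⟨hx, rfl⟩
      rw [h2, mul_one]
      have h3 : ((finTwoArrowEquiv H.I).symm (y, x)) = ![y, x] := rfl
      rw [h3]
      have h4 : (![y, x] : Fin 2 → H.I) 0 = y := rfl
      rw [h4, tr_mid H a hv hp]
      ring
    · intro x' _ hx'
      rw [map_smul, smul_eq_mul]
      have h2 : crd H o x (H.e o (((finTwoArrowEquiv H.I).symm (y, x')) 1)) = 0 := by
        rw [cd_e]
        exact if_neg fun h => hx' h.2.symm
      rw [h2, mul_zero]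
    · intro h
      exact absurd (Finset.mem_univ _) h
  · rw [T2_off H a o z hx, zero_mul, zero_mul, mul_zero]
    refine Finset.sum_eq_zero fun x' _ => ?_
    rw [cd_off H o hx]

/-- the image has the middle degree of the source -/
theorem ma_gr (o a : Fin m) {z : W.coh (H.X a ⊗ H.X o)}
    (hz : z ∈ W.gr (H.X a ⊗ H.X o) (2 * H.n a)) {v : W.coh (H.X a)}
    (hv : v ∈ W.gr (H.X a) (H.n a)) (hp : H.ξ a * v = 0) :
    W.push (snd (H.X a) (H.X o)) (W.pull (fst (H.X a) (H.X o)) v * z)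
      ∈ W.gr (H.X o) (H.n a) := by
  rw [cd_exp H o (W.push (snd (H.X a) (H.X o)) (W.pull (fst (H.X a) (H.X o)) v * z))]
  refine Submodule.sum_mem _ fun x _ => ?_
  by_cases hx : (H.D.typ x).2 = H.n a
  · exact Submodule.smul_mem _ _ (hx ▸ H.e_gr o x)
  · rw [ma H o a z hv hp, Finset.sum_eq_zero, mul_zero, zero_smul]
    · exact Submodule.zero_mem _
    intro y _
    by_cases hy : (H.D.typ y).2 = H.n a
    · have h1 : T2 H a o z ![y, x] = 0 := by
        refine GJ.tc_gr H (ge H) staB (.prod (.leaf a) (.leaf o)) hz ![y, x] ?_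
        intro h
        have h2 : ∑ l : Fin 2, (H.D.typ ((![y, x] : Fin 2 → H.I) l)).2 = 2 * H.n a := h
        rw [Fin.sum_univ_two] at h2
        have h3 : (H.D.typ y).2 + (H.D.typ x).2 = 2 * H.n a := h2
        omega
      rw [h1, zero_mul, zero_mul]
    · rw [cd_gr H a (by rw [H.D.typ_τ]; exact hy) hv, mul_zero]

/-- the same for the real span of the algebraic classes -/
theorem ma_span (o a : Fin m) {z : W.coh (H.X a ⊗ H.X o)}
    (hz : z ∈ Submodule.span ℝ {z | z ∈ W.alg (H.X a ⊗ H.X o) (H.n a)}) {v : W.coh (H.X a)}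
    (hv : v ∈ W.gr (H.X a) (H.n a)) (hp : H.ξ a * v = 0) :
    W.push (snd (H.X a) (H.X o)) (W.pull (fst (H.X a) (H.X o)) v * z)
      ∈ W.gr (H.X o) (H.n a) := by
  refine ma_gr H o a ?_ hv hp
  have h1 : Submodule.span ℝ {z | z ∈ W.alg (H.X a ⊗ H.X o) (H.n a)}
      ≤ (W.gr (H.X a ⊗ H.X o) (2 * H.n a)).restrictScalars ℝ := by
    rw [Submodule.span_le]
    intro t ht
    exact H.hW.alg_gr (𝒱.prod (H.mem a) (H.mem o)) ht
  exact h1 hz

end

end Pool.Agent.Lib.MP_361a6f_ag.FL.CW.A74
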