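import Pool.Agent.Lib.MP_361a6f_ag.FL.CW.Mc
import Pool.Agent.Lib.MP_361a6f_ag.FL.CW.Ma
import Pool.Agent.Lib.MP_361a6f_ag.FL.CW.Cp
import Pool.Agent.Lib.MP_361a6f_ag.FL.CV.Ca
import Pool.Agent.Lib.MP_361a6f_ag.FL.PT.Diag

/-!
# The isometry from its pieces
-/

open CategoryTheory AlgebraicGeometry MonoidalCategory CartesianMonoidalCategory

universe u v w w'

set_option autoImplicit false
set_option linter.unusedSectionVars false

namespace Pool.Agent.Lib.MP_361a6f_ag.FL.CW

open Pool.Agent.Lib.MP_361a6f_ag.H3 Pool.Agent.Lib.MP_361a6f_ag.SQ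
  Pool.Agent.Lib.MP_361a6f_ag.PP Pool.Agent.Lib.MP_361a6f_ag.FL.PTG
open CV (crd cd_psi cd_exp cd_off cd_gr cd_e)

section mat

variable {k : Type u} [Field k] {m : ℕ} {W : CohomologyData.{u, 0, w} k ℂ} {𝒱 : VarietyClass k}
  (H : Host W 𝒱 m)

theorem opM_rsmul (c : ℝ) (u : Ten H.I 2) : E.opM H.D (c • u) = c • E.opM H.D u := by
  ext i j
  show (c • u) ![i, H.D.τ j] * H.D.s j = c • (u ![i, H.D.τ j] * H.D.s j)
  rw [Pi.smul_apply, smul_mul_assoc]

theorem opM_radd (u v : Ten H.I 2) : E.opM H.D (u + v) = E.opM H.D u + E.opM H.D v := by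
  ext i j
  show (u + v) ![i, H.D.τ j] * H.D.s j = u ![i, H.D.τ j] * H.D.s j + v ![i, H.D.τ j] * H.D.s j
  rw [Pi.add_apply, add_mul]

theorem opM_rzero : E.opM H.D (0 : Ten H.I 2) = 0 := by
  ext i j
  show (0 : Ten H.I 2) ![i, H.D.τ j] * H.D.s j = 0
  rw [Pi.zero_apply, zero_mul]

/-- the operators of the real combinations of members -/
theorem opM_mem {u : Ten H.I 2} (hu : u ∈ Submodule.span ℝ {u : Ten H.I 2 | u ∈ H.At 2}) :
    E.opM H.D u ∈ Sp H := by
  induction hu using Submodule.span_induction with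
  | mem u hu => exact Submodule.subset_span ⟨u, hu, rfl⟩
  | zero =>
    rw [opM_rzero]
    exact zero_mem _
  | add u v _ _ h h' =>
    rw [opM_radd]
    exact add_mem h h'
  | smul c u _ h =>
    rw [opM_rsmul]
    exact Submodule.smul_mem _ _ h

theorem mul_mem' (M N : Matrix H.I H.I ℂ) (hM : M ∈ Sp H) (hN : N ∈ Sp H) : M * N ∈ Sp H := by
  induction hN using Submodule.span_induction with
  | mem N hN =>
    obtain ⟨u, hu, rfl⟩ := hN
    rw [← PT.opM_sl]
    exact opM_mem H (CV.sl_rspan (aSys_at (at_ H)) hM 0 (Submodule.subset_span hu))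
  | zero =>
    rw [Matrix.mul_zero]
    exact zero_mem _
  | add N N' _ _ h h' =>
    rw [Matrix.mul_add]
    exact add_mem h h'
  | smul c N _ h =>
    rw [Matrix.mul_smul]
    exact Submodule.smul_mem _ _ h

theorem T2_mem {a o : Fin m} {e : ℕ} {z : W.coh ((H.X a).prod (H.X o))}
    (hz : z ∈ Submodule.span ℝ {z | W.IsAlg ((H.X a).prod (H.X o)) e z}) :
    permT (Equiv.swap 0 1) (T2 H a o z) ∈ Submodule.span ℝ {u : Ten H.I 2 | u ∈ H.At 2} := by
  induction hz using Submodule.span_induction with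
  | mem z hz =>
    refine Submodule.subset_span ((aSys_at (at_ H)).perm 2 _ _ ?_)
    refine AddSubgroup.subset_closure (Or.inr ⟨.prod (.leaf a) (.leaf o), rfl, z, ?_, rfl⟩)
    exact alg_le_tot H.hW _ _ hz
  | zero =>
    have h : T2 H a o 0 = 0 := map_zero (H.tc (.prod (.leaf a) (.leaf o)))
    rw [h]
    exact zero_mem _
  | add z z' _ _ h h' =>
    have h2 : T2 H a o (z + z') = T2 H a o z + T2 H a o z' :=
      map_add (H.tc (.prod (.leaf a) (.leaf o))) z z'
    rw [h2]
    exact add_mem h h'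
  | smul c z _ h =>
    have h2 : T2 H a o (c • z) = c • T2 H a o z := by
      have h3 : T2 H a o ((c : ℂ) • z) = (c : ℂ) • T2 H a o z :=
        map_smul (H.tc (.prod (.leaf a) (.leaf o))) (c : ℂ) z
      exact h3
    rw [h2]
    exact Submodule.smul_mem _ c h

/-- **The middle piece.** -/
theorem middle {o : Fin m} (hF : Fac W 𝒱 H.X H.n H.ξ o) (a : Fin m) (ha : a ≠ o) :
    Pc H o a (H.n a) := by
  obtain ⟨z, hz, hemb⟩ := (hF.mid a ha).emb
  have hzg : z ∈ W.gr (H.X a ⊗ H.X o) (2 * H.n a) := by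
    have h1 : Submodule.span ℝ {z | z ∈ W.alg (H.X a ⊗ H.X o) (H.n a)}
        ≤ (W.gr (H.X a ⊗ H.X o) (2 * H.n a)).restrictScalars ℝ := by
      rw [Submodule.span_le]
      intro t ht
      exact H.hW.alg_gr (𝒱.prod (H.mem a) (H.mem o)) ht
    exact h1 hz
  exact mid_piece H hF ha (z := z) (fun v hv hp x => A74.ma H o a z hv hp x)
    (fun v hv hp => A74.ma_gr H o a hzg hv hp) (opM_mem H (T2_mem H hz)) (mul_mem' H) hemb

end mat

/-- **Row CC.** -/
theorem cc : CStatement.{u, w} := by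
  intro k _ m W 𝒱 H o hF
  suffices h : ∀ l : Fin m × ℕ, Pc H o l.1 l.2 by
    obtain ⟨T, hT, ht, hi⟩ := CV.glue _ h
    exact ⟨T, hT, ht, hi⟩
  rintro ⟨a, d⟩
  by_cases ha : a = o
  · subst ha
    refine ⟨E.opM H.D (om H.D (a, d)),
      Submodule.subset_span ⟨om H.D (a, d), (aSys_at (at_ H)).om _, rfl⟩, ?_, ?_⟩
    · intro x i hx
      rw [CV.opM_om_apply] at hx
      by_cases h2 : H.D.typ x = (a, d) ∧ x = i
      · exact ⟨h2.1, h2.2 ▸ h2.1⟩
      · exact absurd (if_neg h2) hx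
    · intro i j hi hj
      rw [Matrix.mul_apply, Finset.sum_eq_single j]
      · rw [Matrix.mul_apply, Finset.sum_eq_single i]
        · rw [Matrix.transpose_apply, CV.opM_om_apply, CV.opM_om_apply, if_pos ⟨hi, rfl⟩,
            if_pos ⟨hj, rfl⟩, one_mul, mul_one]
        · intro x _ hx
          rw [Matrix.transpose_apply, CV.opM_om_apply, if_neg (fun h => hx h.2), zero_mul]
        · intro h
          exact absurd (Finset.mem_univ _) h
      · intro y _ hy
        rw [CV.opM_om_apply, if_neg (fun h => hy h.2), mul_zero]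
      · intro h
        exact absurd (Finset.mem_univ _) h
  · by_cases hd : d = H.n a
    · rw [hd]
      exact middle H hF a ha
    · exact low H hF a ha d hd

end Pool.Agent.Lib.MP_361a6f_ag.FL.CW
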