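import Pool.Agent.Lib.MP_361a6f_ag.FL.CW.ThmPM
import Pool.Agent.Lib.MP_361a6f_ag.FL.CV.Ce

/-!
# Curves are varieties as in `EQ.Mid`
-/

open CategoryTheory AlgebraicGeometry MonoidalCategory CartesianMonoidalCategory

universe u v w w'

set_option autoImplicit false
set_option linter.unusedSectionVars false

namespace Pool.Agent.Lib.MP_361a6f_ag.FL.CW.H20

open Pool.Agent.Lib.MP_361a6f_ag.H3 Pool.Agent.Lib.MP_361a6f_ag.SQ
  Pool.Agent.Lib.MP_361a6f_ag.PP Pool.Agent.Lib.MP_361a6f_ag.FL.PTG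
open CV (crd cd_psi cd_exp cd_off cd_gr cd_e cd_one e_gr1 Cm Cm_ne)

noncomputable section

variable {k : Type u} [Field k] {m : ℕ} {W : CohomologyData.{u, 0, w} k ℂ} {𝒱 : VarietyClass k}
  {H : Host W 𝒱 m}

/-- the class `(f × 1)^* δ` -/
theorem exists_cls {o a : Fin m} (f : H.X a ⟶ H.X o) :
    ∃ z ∈ W.alg (H.X a ⊗ H.X o) 1, ∀ v : Fin 2 → H.I,
      (H.tc (.prod (.leaf a) (.leaf o)) z : Ten H.I 2) v
        = Cm f (v 0) (H.D.τ (v 1)) * H.D.s (H.D.τ (v 1)) := by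
  have hXo := H.mem o
  have hXa := H.mem a
  let T2 : W.coh (H.X o ⊗ H.X o) →ₗ[ℂ] Ten H.I 2 := H.tc (.prod (.leaf o) (.leaf o))
  obtain ⟨δ, hδ, hδu⟩ : ∃ z : W.coh (H.X o ⊗ H.X o), z ∈ W.alg (H.X o ⊗ H.X o) 1 ∧
      T2 z = om H.D (o, 1) :=
    PosL.at_word H (gr ge H) (ge H) (.prod (.leaf o) (.leaf o))
      (fun _ => (o, 1)) (fun j => by
        have : ∀ j : Fin 2, ((.prod (.leaf o) (.leaf o) : Prd m).lw j) = o := by
          intro j
          fin_cases j <;> rfl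
        exact (this j).symm) 1
      (Fin.sum_univ_two (fun _ : Fin 2 => ((o, 1) : Fin m × ℕ).2)) ((at_ H).om (o, 1))
      (fun (w : Fin 2 → H.I) hw => by
        refine if_neg ?_
        rintro ⟨h1, h2⟩
        apply hw
        intro j
        have : ∀ j : Fin 2, H.D.typ ((w : Fin 2 → H.I) j) = (o, 1) := by
          intro j
          fin_cases j
          · exact h1
          · show H.D.typ (w 1) = (o, 1)
            rw [h2, H.D.typ_τ]
            exact h1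
        exact this j)
  let g : H.X a ⊗ H.X o ⟶ H.X o ⊗ H.X o := lift (fst (H.X a) (H.X o) ≫ f) (snd (H.X a) (H.X o))
  let δ' : W.coh (H.X a ⊗ H.X o) := W.pull g δ
  have hδ' : δ' ∈ W.alg (H.X a ⊗ H.X o) 1 :=
    H.hW.pull_alg (𝒱.prod hXa hXo) (𝒱.prod hXo hXo) g hδ
  let Tao : W.coh (H.X a ⊗ H.X o) →ₗ[ℂ] Ten H.I 2 := H.tc (.prod (.leaf a) (.leaf o))
  refine ⟨δ', hδ', fun v => ?_⟩
  -- the value
  have hexp : δ = ∑ w : Fin 2 → H.I, T2 δ w • (W.pull (fst (H.X o) (H.X o)) (H.e o (w 0)) *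
      W.pull (snd (H.X o) (H.X o)) (H.e o (w 1))) :=
    (ge H).expand (.prod (.leaf o) (.leaf o)) δ
  have hδ2 : δ' = ∑ w : Fin 2 → H.I, om H.D (o, 1) w •
      (W.pull (fst (H.X a) (H.X o)) (W.pull f (H.e o (w 0))) *
        W.pull (snd (H.X a) (H.X o)) (H.e o (w 1))) := by
    show W.pull g δ = _
    rw [hexp, map_sum]
    refine Finset.sum_congr rfl fun w _ => ?_
    rw [hδu, map_smul, map_mul, ← W.pull_comp, ← W.pull_comp, lift_fst, lift_snd, W.pull_comp]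
  have hT : ∀ (y : W.coh (H.X a)) (x : W.coh (H.X o)) (v : Fin 2 → H.I),
      Tao (W.pull (fst (H.X a) (H.X o)) y * W.pull (snd (H.X a) (H.X o)) x) v
        = crd H a (v 0) y * crd H o (v 1) x := by
    intro y x v
    refine (congrFun ((ge H).tc_outer (.leaf a) (.leaf o) y x) v).trans ?_
    show (H.tc (.leaf a) y : Ten H.I 1) (fun i => v (Fin.castAdd 1 i)) *
      (H.tc (.leaf o) x : Ten H.I 1) (fun i => v (Fin.natAdd 1 i)) = _
    have h8 : (fun i : Fin 1 => v (Fin.castAdd 1 i)) = fun _ => v 0 := by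
      funext i
      rw [Subsingleton.elim i 0]
      rfl
    have h9 : (fun i : Fin 1 => v (Fin.natAdd 1 i)) = fun _ => v 1 := by
      funext i
      rw [Subsingleton.elim i 0]
      rfl
    exact congrArg₂ (· * ·) (congrArg (fun t => (H.tc (.leaf a) y : Ten H.I 1) t) h8)
      (congrArg (fun t => (H.tc (.leaf o) x : Ten H.I 1) t) h9)
  show Tao δ' v = _
  rw [hδ2, map_sum, Finset.sum_apply, Finset.sum_eq_single ![H.D.τ (v 1), v 1]]
  · rw [map_smul, Pi.smul_apply, smul_eq_mul, hT, cd_e, Cm, om]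
    by_cases h1 : H.D.typ (H.D.τ (v 1)) = (o, 1)
    · have h2 : H.D.typ (![H.D.τ (v 1), v 1] 0) = (o, 1) ∧
          ![H.D.τ (v 1), v 1] 1 = H.D.τ (![H.D.τ (v 1), v 1] 0) :=
        ⟨h1, (H.D.τ_τ _).symm⟩
      have h3 : (H.D.typ (![H.D.τ (v 1), v 1] 1)).1 = o ∧ v 1 = ![H.D.τ (v 1), v 1] 1 := by
        refine ⟨?_, rfl⟩
        show (H.D.typ (v 1)).1 = o
        rw [← H.D.typ_τ, h1]
      rw [if_pos h2, if_pos h3, if_pos h1]
      show H.D.s (H.D.τ (v 1)) * (crd H a (v 0) (W.pull f (H.e o (H.D.τ (v 1)))) * 1) = _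
      ring
    · have h2 : ¬ (H.D.typ (![H.D.τ (v 1), v 1] 0) = (o, 1) ∧
          ![H.D.τ (v 1), v 1] 1 = H.D.τ (![H.D.τ (v 1), v 1] 0)) := fun h => h1 h.1
      rw [if_neg h2, if_neg h1, zero_mul, zero_mul]
  · intro w _ hw
    rw [map_smul, Pi.smul_apply, smul_eq_mul, hT, cd_e]
    by_cases h1 : (H.D.typ (w 1)).1 = o ∧ v 1 = w 1
    · have h2 : om H.D (o, 1) w = 0 := by
        rw [om, if_neg]
        rintro ⟨-, h3⟩
        apply hw
        funext i
        fin_cases i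
        · show w 0 = H.D.τ (v 1)
          rw [h1.2, h3, H.D.τ_τ]
        · exact h1.2.symm
      rw [h2, zero_mul]
    · rw [if_neg h1, mul_zero, mul_zero]
  · intro h
    exact absurd (Finset.mem_univ _) h

/-- the class `x_v` with `f^* x_v = r v` is `z_* v` up to a scalar -/
theorem corr_eq {o a : Fin m} (f : H.X a ⟶ H.X o)
    (hdo : PositiveDivisor W (H.X o) (H.n o) (H.ξ o))
    (hda : PositiveDivisor W (H.X a) (H.n a) (H.ξ a)) (hn : 0 < H.n o) (hna : H.n a = 1)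
    {z : W.coh ((H.X a).prod (H.X o))}
    (hz : ∀ v : Fin 2 → H.I, (H.tc (.prod (.leaf a) (.leaf o)) z : Ten H.I 2) v
        = Cm f (v 0) (H.D.τ (v 1)) * H.D.s (H.D.τ (v 1)))
    {v : W.coh (H.X a)} (hv : v ∈ W.gr (H.X a) 1) {x : W.coh (H.X o)} (hx : x ∈ W.gr (H.X o) 1)
    (h : ∀ y, W.Deg (H.X o) 1 y →
        W.Tr (W.cup (H.ξ o ^ (H.n o - 1)) (W.cup x y)) = W.Tr (W.cup v (W.pb f y))) :
    EQ.corr W z v = (-(PP.sgn 1 * ((H.n o - 1).factorial : ℂ))) • x := by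
  have hfac : ((H.n o - 1).factorial : ℂ) ≠ 0 := by
    exact_mod_cast (H.n o - 1).factorial_ne_zero
  have hp : H.ξ a * v = 0 := by
    have h1 : H.ξ a * v ∈ W.gr (H.X a) (2 * 1 + 1) :=
      H.hW.mul_gr (H.mem a) (H.hW.alg_gr (H.mem a) hda.1) hv
    exact H.hW.top_gr (H.mem a) h1 (by omega)
  -- the coordinates of `z_* v`
  have h1 : ∀ y, crd H o y (EQ.corr W z v)
      = PP.sgn 1 * (H.D.s (H.D.τ y) * ∑ b, Cm f b (H.D.τ y) * H.D.s (H.D.τ b) *
        crd H a (H.D.τ b) v) := by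
    intro y
    have h2 := A74.ma H o a z (v := v) (by rw [hna]; exact hv) hp y
    rw [hna] at h2
    refine h2.trans (congrArg (PP.sgn 1 * ·) ?_)
    rw [Finset.mul_sum]
    refine Finset.sum_congr rfl fun b _ => ?_
    have h3 : A74.T2 H a o z ![b, y] = Cm f b (H.D.τ y) * H.D.s (H.D.τ y) := hz ![b, y]
    rw [h3]
    ring
  -- the coordinates of `x`
  have h2 : ∀ y, H.D.typ y = (o, 1) → ((H.n o - 1).factorial : ℂ) * crd H o y x
      = H.D.s y * ∑ b, Cm f b (H.D.τ y) * H.D.s (H.D.τ b) * crd H a (H.D.τ b) v := by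
    intro y hy
    have hτy : H.D.typ (H.D.τ y) = (o, 1) := by rw [H.D.typ_τ, hy]
    have he := e_gr1 H o hτy
    have hfe := H.hW.pull_gr (H.mem a) (H.mem o) f he
    have h3 : W.tr (H.X o) (H.ξ o ^ (H.n o - 1) * (x * H.e o (H.D.τ y)))
        = W.tr (H.X a) (v * W.pull f (H.e o (H.D.τ y))) := h _ he
    have h4 := psi_one H.hW (H.mem o) hdo (H.lam o) hn x he
    have h5 := psi_one H.hW (H.mem a) hda (H.lam a) hna.ge v hfe
    have h6 : ((H.n a - 1).factorial : ℂ)⁻¹ * -W.tr (H.X a)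
        (H.ξ a ^ (H.n a - 1) * (v * W.pull f (H.e o (H.D.τ y))))
        = -W.tr (H.X a) (v * W.pull f (H.e o (H.D.τ y))) := by
      rw [hna, Nat.sub_self, pow_zero, one_mul, Nat.factorial_zero, Nat.cast_one, inv_one,
        one_mul]
    rw [h6] at h5
    have h7 : psi W (H.X a) (H.ξ a) (H.Lam a) (H.lam a).slm.internal v
        (W.pull f (H.e o (H.D.τ y))) = ∑ b, Cm f b (H.D.τ y) * H.D.s (H.D.τ b) *
          crd H a (H.D.τ b) v := by
      conv_lhs => rw [cd_exp H a (W.pull f (H.e o (H.D.τ y)))]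
      refine (ps_sum' H a _ _ _).trans (Finset.sum_congr rfl fun b _ => ?_)
      rw [ps_smul', ps_e, Cm, if_pos hτy]
      ring
    rw [← h7, h5, cd_psi, h4, h3]
    field_simp
  rw [cd_exp H o (EQ.corr W z v), cd_exp H o x, Finset.smul_sum]
  refine Finset.sum_congr rfl fun y _ => ?_
  rw [smul_smul]
  congr 1
  by_cases hy : H.D.typ y = (o, 1)
  · have h3 : H.D.s (H.D.τ y) = -H.D.s y := by
      refine (H.D.odd_τ y ?_).2
      rw [H.odd_iff, hy]
      exact odd_one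
    rw [h1, h3]
    linear_combination (PP.sgn 1) * h2 y hy
  · rw [cd_one H o hy hx, mul_zero, h1, Finset.sum_eq_zero, mul_zero, mul_zero]
    intro b _
    have h3 : Cm f b (H.D.τ y) = 0 := by
      by_contra h3
      apply hy
      have h4 := (Cm_ne f h3).1
      rwa [H.D.typ_τ] at h4
    rw [h3, zero_mul, zero_mul]

/-- A curve as in `EQ.Curve` is a variety as in `EQ.Mid`. -/
theorem mid_of_curve {o a : Fin m} (hdo : PositiveDivisor W (H.X o) (H.n o) (H.ξ o))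
    (hn : 0 < H.n o) (hna : H.n a = 1)
    (hC : EQ.Curve W 𝒱 (H.X o) (H.n o) (H.ξ o) (H.X a) (H.ξ a)) :
    EQ.Mid W 𝒱 (H.X o) (H.n o) (H.ξ o) (H.X a) 1 (H.ξ a) := by
  obtain ⟨f, r, hr, hjac⟩ := hC.jac
  obtain ⟨z, hz, hz'⟩ := exists_cls (H := H) f
  have hda : PositiveDivisor W (H.X a) (H.n a) (H.ξ a) := by
    rw [hna]
    exact hC.div
  have hfac : (0 : ℝ) < ((H.n o - 1).factorial : ℝ) := by
    exact_mod_cast (H.n o - 1).factorial_pos
  have hr' : (0 : ℝ) < (r : ℝ) := by exact_mod_cast hr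
  let κ : ℝ := (((H.n o - 1).factorial : ℝ) * Real.sqrt (r : ℝ))⁻¹
  have hκ : κ * κ * (((H.n o - 1).factorial : ℝ) * ((H.n o - 1).factorial : ℝ) * (r : ℝ)) = 1 := by
    have h1 : Real.sqrt (r : ℝ) * Real.sqrt (r : ℝ) = r := Real.mul_self_sqrt hr'.le
    have h2 : Real.sqrt (r : ℝ) ≠ 0 := (Real.sqrt_pos.2 hr').ne'
    have key : ∀ t F ρ : ℝ, t * t = ρ → t ≠ 0 → F ≠ 0 →
        (F * t)⁻¹ * (F * t)⁻¹ * (F * F * ρ) = 1 := by
      intro t F ρ h ht hF
      rw [← h]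
      field_simp
    exact key _ _ _ h1 h2 hfac.ne'
  have hκc : (κ : ℂ) * κ * (((H.n o - 1).factorial : ℂ) * ((H.n o - 1).factorial : ℂ) * (r : ℂ))
      = 1 := by
    have h4 := congrArg (fun x : ℝ => (x : ℂ)) hκ
    push_cast at h4
    exact h4
  have hcorr : ∀ v, EQ.corr W (κ • z) v = (κ : ℂ) • EQ.corr W z v := by
    intro v
    show W.push _ (_ * ((κ : ℂ) • z)) = (κ : ℂ) • W.push _ (_ * z)
    rw [mul_smul_comm, map_smul]
  refine ⟨hC.mem, hn, hC.div, ⟨one_pos, fun i x hi hx => ?_⟩, κ • z, Submodule.smul_mem _ _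
    (Submodule.subset_span hz), fun v hv _ => ?_⟩
  · -- the degrees `0` and `2`
    rcases Nat.lt_or_ge i 3 with h3 | h3
    · have h4 : i = 0 ∨ i = 2 := by omega
      rcases h4 with rfl | rfl
      · obtain ⟨c, hc⟩ := hC.conn x hx
        exact Or.inr ⟨0, c, rfl, by rw [hc, pow_zero]⟩
      · refine Or.inr ⟨1, W.tr (H.X a) x / W.tr (H.X a) (H.ξ a), rfl, ?_⟩
        rw [pow_one]
        exact CV.Ce.gr_two H.hW hC.mem hC.conn hC.div hx
    · left
      exact H.hW.top_gr hC.mem hx (by omega)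
  · obtain ⟨x, hx, hfx, htr⟩ := hjac v hv
    have hzv := corr_eq f hdo hda hn hna hz' hv hx htr
    have hgr : EQ.corr W (κ • z) v ∈ W.gr (H.X o) 1 := by
      rw [hcorr, hzv]
      exact Submodule.smul_mem _ _ (Submodule.smul_mem _ _ hx)
    refine ⟨?_, fun u hu _ => ?_⟩
    · have h1 := H.hW.mul_gr (H.mem o) (H.hW.alg_gr (H.mem o) (H.hW.pow_alg (H.mem o) hdo.1
        (H.n o - 1 + 1))) hgr
      exact H.hW.top_gr (H.mem o) h1 (by omega)
    · obtain ⟨x', hx', hfx', htr'⟩ := hjac u hu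
      have hzu := corr_eq f hdo hda hn hna hz' hu hx' htr'
      rw [hcorr, hcorr, hzv, hzu]
      have h1 : W.tr (H.X o) (H.ξ o ^ (H.n o - 1) * (x * x')) = (r : ℂ) * W.tr (H.X a) (v * u) := by
        have h2 : W.tr (H.X o) (H.ξ o ^ (H.n o - 1) * (x * x'))
            = W.tr (H.X a) (v * W.pull f x') := htr x' hx'
        have h3 : W.pull f x' = (r : ℂ) • u := hfx'
        rw [h2, h3, mul_smul_comm, map_smul, smul_eq_mul]
      show W.tr (H.X o) (H.ξ o ^ (H.n o - 1) * (_ • _ • x * _ • _ • x')) = W.tr (H.X a) (v * u)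
      simp only [smul_mul_assoc, mul_smul_comm, map_smul, smul_eq_mul]
      rw [h1]
      have h4 : PP.sgn 1 * PP.sgn 1 = 1 := sgn_sq 1
      linear_combination ((κ : ℂ) * κ * ((H.n o - 1).factorial : ℂ) *
        ((H.n o - 1).factorial : ℂ) * r * W.tr (H.X a) (v * u)) * h4
        + (W.tr (H.X a) (v * u)) * hκc

end

end Pool.Agent.Lib.MP_361a6f_ag.FL.CW.H20
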