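import Pool.Agent.Lib.MP_361a6f_ag.FL.CW.Defs
import Pool.Agent.Lib.MP_361a6f_ag.FL.PT0.Main
import Pool.Agent.Lib.MP_361a6f_ag.FL.Z.Mid

/-!
# Products of abelian varieties and of varieties with only middle cohomology: the theorem from the
# rows
-/

open CategoryTheory AlgebraicGeometry MonoidalCategory CartesianMonoidalCategory

universe u v w w'

set_option autoImplicit false

namespace Pool.Agent.Lib.MP_361a6f_ag.FL.CW

open Pool.Agent.Lib.MP_361a6f_ag.H3 Pool.Agent.Lib.MP_361a6f_ag.SQ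
  Pool.Agent.Lib.MP_361a6f_ag.PP Pool.Agent.Lib.MP_361a6f_ag.FL.PTG

/-- `Q1` modulo numerical equivalence in codimension at most two, on all products, from
nonnegativity on the powers of the factor `o`. -/
theorem semi_all (hCC : CStatement.{u, w}) (hCD : CV.CDStatement.{u, w})
    (hCG : CV.CGStatement.{u, w})
    {k : Type u} [Field k] {W : CohomologyData.{u, 0, w} k ℂ} {𝒱 : VarietyClass k}
    (hW : IsWeilCohomology W 𝒱) {m : ℕ} {X : Fin m → Sch k} {n : Fin m → ℕ}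
    (hX : ∀ a, 𝒱.mem (X a) (n a)) {ξ : ∀ a, W.coh (X a)} {o : Fin m} (hF : Fac W 𝒱 X n ξ o)
    (hHL : ∀ a, HardLefschetz W (X a) (n a) (ξ a)) (hAL : ∀ a, AlgebraicLambda W (X a) (n a) (ξ a))
    (h : ∀ P : Prd 1, ∀ i ≤ 2, SemiCodim W (P.obj fun _ => X o) (P.dim fun _ => n o)
      (P.pol W (X := fun _ => X o) fun _ => ξ o) i) (P : Prd m) (i : ℕ) (hi : i ≤ 2) :
    SemiCodim W (P.obj X) (P.dim n) (P.pol W ξ) i := by
  obtain ⟨H, rfl, rfl, hξ⟩ := gb hW hX (fun a => (hF.div a).1) hHL hAL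
  obtain rfl := eq_of_heq hξ
  obtain ⟨T, hT⟩ := hCC H hF
  have hpsi := hCD H hT fun Q hQ i hi => hCG h Q hQ i hi
  have hPa : P.pol W H.ξ ∈ W.alg (P.obj H.X) 1 := (H.lamP P).2
  refine semi_of_q1 hW (H.memP P) hPa ?_
  intro x hj hx hp hn
  have key : ∀ z : W.coh (P.obj H.X), EQ.NumTrivial W (P.obj H.X) z ↔
      EndNum.Num W (P.obj H.X) z := by
    intro z
    constructor
    · intro hz y hy
      refine tot_induction H.hW (P := fun y => W.tr (P.obj H.X) (z * y) = 0) hy ?_ ?_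
      · intro l y hy
        exact hz l y hy
      · intro y y' h h'
        rw [mul_add, map_add, h, h', add_zero]
    · intro hz l y hy
      exact hz y (alg_le_tot H.hW _ l hy)
  exact EndNum.q1num hW (H.memP P) hPa (H.lamP P).1 hj
    (fun x hx hg => hpsi P i hi x hx hg) hx ((key _).1 hp) fun h1 => hn ((key _).2 h1)

/-- **Theorem PM from the rows.** -/
theorem cz (hCC : CStatement.{u, w}) (hCD : CV.CDStatement.{u, w}) (hCG : CV.CGStatement.{u, w})
    (hCF : CV.CFStatement.{u, w}) (hCH : CV.CHStatement.{u, v, w, w'}) :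
    ThmPM.{u, v, w, w'} := by
  intro k _ W 𝒱 hW k' _ W' 𝒱' hW' D hR hE m Y e p hC P η hη j z hz hj hp hn
  have hmem : ∀ a : Fin (m + 1), 𝒱.mem ((Fin.cons D.X Y : Fin (m + 1) → Sch k) a)
      ((Fin.cons D.g e : Fin (m + 1) → ℕ) a) := by
    intro a
    refine Fin.cases ?_ (fun a => ?_) a
    · exact hR.mem
    · exact (hC a).mem
  have hdiv : ∀ a : Fin (m + 1), PositiveDivisor W ((Fin.cons D.X Y : Fin (m + 1) → Sch k) a)
      ((Fin.cons D.g e : Fin (m + 1) → ℕ) a)
      (Fin.cons (α := fun a => W.coh (Fin.cons (α := fun _ => Sch k) D.X Y a)) D.ξ p a) := by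
    intro a
    refine Fin.cases ?_ (fun a => ?_) a
    · exact hR.div
    · exact (hC a).div
  have hU := PT0.unital_of_group hR.group
  obtain ⟨hHL0, hAL0, j0, hj0⟩ := unital hW hR.mem hR.conn hU hR.div
  have hall : ∀ a : Fin (m + 1),
      HardLefschetz W ((Fin.cons D.X Y : Fin (m + 1) → Sch k) a)
        ((Fin.cons D.g e : Fin (m + 1) → ℕ) a)
        (Fin.cons (α := fun a => W.coh (Fin.cons (α := fun _ => Sch k) D.X Y a)) D.ξ p a) ∧
      AlgebraicLambda W ((Fin.cons D.X Y : Fin (m + 1) → Sch k) a)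
        ((Fin.cons D.g e : Fin (m + 1) → ℕ) a)
        (Fin.cons (α := fun a => W.coh (Fin.cons (α := fun _ => Sch k) D.X Y a)) D.ξ p a) ∧
      ∃ j : W.coh ((Fin.cons D.X Y : Fin (m + 1) → Sch k) a) →ₛₗ[starRingEnd ℂ]
          W.coh ((Fin.cons D.X Y : Fin (m + 1) → Sch k) a),
        HRStr W ((Fin.cons D.X Y : Fin (m + 1) → Sch k) a)
          ((Fin.cons D.g e : Fin (m + 1) → ℕ) a)
          (Fin.cons (α := fun a => W.coh (Fin.cons (α := fun _ => Sch k) D.X Y a)) D.ξ p a) j := by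
    intro a
    refine Fin.cases ?_ (fun a => ?_) a
    · exact ⟨hHL0, hAL0, j0, hj0⟩
    · exact mid hW (hC a).mem (hC a).mid (hC a).div
  have hF : Fac W 𝒱 (Fin.cons D.X Y : Fin (m + 1) → Sch k) (Fin.cons D.g e)
      (Fin.cons (α := fun a => W.coh (Fin.cons (α := fun _ => Sch k) D.X Y a)) D.ξ p) 0 := by
    refine ⟨hdiv, fun a ha => ?_⟩
    obtain ⟨b, rfl⟩ := Fin.exists_succ_eq.2 ha
    exact hC b
  choose jj hjj using fun a => (hall a).2.2
  exact hCF hW hmem hdiv (fun a => (hall a).1) (fun a => (hall a).2.1) jj hjj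
    (fun P i hi => semi_all hCC hCD hCG hW hmem hF (fun a => (hall a).1) (fun a => (hall a).2.1)
      (fun Q i hi => hCH hW hW' hR hE Q i hi) P i hi) hη hz hj hp hn

end Pool.Agent.Lib.MP_361a6f_ag.FL.CW
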