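import Pool.Agent.Lib.MP_361a6f_ag.FL.CW.Defs
import Pool.Agent.Lib.MP_361a6f_ag.FL.B.Pol4
import Pool.Agent.Lib.MP_361a6f_ag.H21.Rat
import Pool.Agent.Lib.MP_361a6f_ag.FL.PT.StatP

/-!
# Change of the polarisation in dimension four, modulo numerical equivalence
-/

open CategoryTheory AlgebraicGeometry MonoidalCategory CartesianMonoidalCategory

universe u v w w'

set_option autoImplicit false
set_option linter.unusedSectionVars false

namespace Pool.Agent.Lib.MP_361a6f_ag.FL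

open Pool.Agent.Lib.MP_361a6f_ag.H3 Pool.Agent.Lib.MP_361a6f_ag.SQ
  Pool.Agent.Lib.MP_361a6f_ag.PP

namespace CW

namespace D4

variable {k : Type u} [Field k] {W : CohomologyData.{u, 0, w} k ℂ} {𝒱 : VarietyClass k}
  (hW : IsWeilCohomology W 𝒱) {X : Sch k} (hX : 𝒱.mem X 4)

include hW hX

/-- numerical triviality, tested in the complementary codimension -/
theorem num_iff {i j : ℕ} (hij : i + j = 4) {z : W.coh X} (hz : z ∈ W.alg X i) :
    EQ.NumTrivial W X z ↔ ∀ y ∈ W.alg X j, W.tr X (z * y) = 0 := by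
  constructor
  · intro h y hy
    exact h j y hy
  · intro h l y hy
    by_cases hl : l = j
    · subst hl
      exact h y hy
    · exact hW.tr_gr hX (hW.mul_gr hX (hW.alg_gr hX hz) (hW.alg_gr hX hy)) (by omega)

theorem mem11 {ζ y : W.coh X} (hζ : ζ ∈ W.alg X 1) (hy : y ∈ W.alg X 1) : ζ * y ∈ W.alg X 2 := by
  have h := hW.mul_alg hX hζ hy
  rwa [show (1 : ℕ) + 1 = 2 from rfl] at h

theorem mem12 {ζ y : W.coh X} (hζ : ζ ∈ W.alg X 1) (hy : y ∈ W.alg X 2) : ζ * y ∈ W.alg X 3 := by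
  have h := hW.mul_alg hX hζ hy
  rwa [show (1 : ℕ) + 2 = 3 from rfl] at h

theorem mem31 {ζ y : W.coh X} (hζ : ζ ∈ W.alg X 3) (hy : y ∈ W.alg X 1) : ζ * y ∈ W.alg X 4 := by
  have h := hW.mul_alg hX hζ hy
  rwa [show (3 : ℕ) + 1 = 4 from rfl] at h

/-- the form on `C^1(X) × C^3(X)` -/
noncomputable def F13 : W.alg X 1 →ₗ[ℚ] W.alg X 3 →ₗ[ℚ] ℚ := H21.form hW hX 1 3 rfl

/-- the form on `C^2(X)` -/
noncomputable def F22 : W.alg X 2 →ₗ[ℚ] W.alg X 2 →ₗ[ℚ] ℚ := H21.form hW hX 2 2 rfl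

theorem F13_zero (x : W.alg X 1) (y : W.alg X 3) :
    F13 hW hX x y = 0 ↔ W.tr X (x.1 * y.1) = 0 := H21.form_eq_zero hW hX 1 3 rfl x y

theorem F22_zero (x y : W.alg X 2) :
    F22 hW hX x y = 0 ↔ W.tr X (x.1 * y.1) = 0 := H21.form_eq_zero hW hX 2 2 rfl x y

theorem F22_cast (x y : W.alg X 2) :
    ((F22 hW hX x y : ℚ) : ℂ) = W.tr X (x.1 * y.1) := H21.form_cast hW hX 2 2 rfl x y

theorem F22_symm (x y : W.alg X 2) : F22 hW hX x y = F22 hW hX y x := by
  apply Rat.cast_injective (α := ℂ)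
  rw [F22_cast, F22_cast, hW.alg_comm hX x.2]

/-- the multiplication by a divisor class -/
def mulL {ζ : W.coh X} (hζ : ζ ∈ W.alg X 1) : W.alg X 1 →ₗ[ℚ] W.alg X 2 where
  toFun y := ⟨ζ * y.1, mem11 hW hX hζ y.2⟩
  map_add' y y' := Subtype.ext (mul_add ζ y.1 y'.1)
  map_smul' q y := Subtype.ext (mul_smul_comm (q : ℂ) ζ y.1)

theorem mulL_ker {ζ : W.coh X} (hζ : ζ ∈ W.alg X 1) :
    LinearMap.ker (F13 hW hX) ≤ (LinearMap.ker (F22 hW hX)).comap (mulL hW hX hζ) := by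
  intro x hx
  rw [LinearMap.mem_ker] at hx
  rw [Submodule.mem_comap, LinearMap.mem_ker]
  ext y
  rw [LinearMap.zero_apply, F22_zero]
  have hy : ζ * y.1 ∈ W.alg X 3 := mem12 hW hX hζ y.2
  have h1 : F13 hW hX x ⟨ζ * y.1, hy⟩ = 0 := by rw [hx, LinearMap.zero_apply]
  rw [F13_zero] at h1
  show W.tr X (ζ * x.1 * y.1) = 0
  rw [hW.alg_comm hX hζ x.1, mul_assoc]
  exact h1

/-- the classes of codimension one modulo numerical equivalence -/
abbrev N1 : Type w := W.alg X 1 ⧸ LinearMap.ker (F13 hW hX)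

/-- the classes of codimension two modulo numerical equivalence -/
abbrev N2 : Type w := W.alg X 2 ⧸ LinearMap.ker (F22 hW hX)

/-- the multiplication by a divisor class, modulo numerical equivalence -/
noncomputable def Lq {ζ : W.coh X} (hζ : ζ ∈ W.alg X 1) : N1 hW hX →ₗ[ℚ] N2 hW hX :=
  Submodule.mapQ _ _ (mulL hW hX hζ) (mulL_ker hW hX hζ)

theorem exists_form : ∃ b : N2 hW hX →ₗ[ℚ] N2 hW hX →ₗ[ℚ] ℚ,
    ∀ x y, b (Submodule.Quotient.mk x) (Submodule.Quotient.mk y) = F22 hW hX x y := by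
  obtain ⟨σ, hσ⟩ := (LinearMap.ker (F22 hW hX)).mkQ.exists_rightInverse_of_surjective
    (Submodule.range_mkQ _)
  refine ⟨(F22 hW hX).compl₁₂ σ σ, fun x y => ?_⟩
  have h1 : ∀ x, F22 hW hX (σ (Submodule.Quotient.mk x)) = F22 hW hX x := by
    intro x
    have h2 := LinearMap.congr_fun hσ (Submodule.Quotient.mk x)
    have h3 : σ (Submodule.Quotient.mk x) - x ∈ LinearMap.ker (F22 hW hX) := by
      rw [← Submodule.Quotient.mk_eq_zero, Submodule.Quotient.mk_sub, sub_eq_zero]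
      exact h2
    rw [LinearMap.mem_ker, map_sub, sub_eq_zero] at h3
    exact h3
  rw [LinearMap.compl₁₂_apply, h1, F22_symm, h1, F22_symm]

/-- the classes of codimension one modulo numerical equivalence are a finite-dimensional space -/
theorem fin1 : FiniteDimensional ℚ (N1 hW hX) := by
  have hfin := hW.finite hX
  obtain ⟨b, hb, hspan, hli⟩ := exists_linearIndependent ℂ (W.alg X 3 : Set (W.coh X))
  have hbf : Finite b := hli.setFinite
  have hbf' : Fintype b := Fintype.ofFinite b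
  let g : W.alg X 1 →ₗ[ℚ] (b → ℚ) := LinearMap.pi
    (fun y => (F13 hW hX).flip ⟨y.1, hb y.2⟩)
  have hg : LinearMap.ker g ≤ LinearMap.ker (F13 hW hX) := by
    intro x hx
    rw [LinearMap.mem_ker] at hx ⊢
    ext y
    rw [LinearMap.zero_apply, F13_zero]
    have hy' : y.1 ∈ Submodule.span ℂ b := by
      rw [hspan]
      exact Submodule.subset_span y.2
    refine Submodule.span_induction (p := fun z _ => W.tr X (x.1 * z) = 0) ?_ ?_ ?_ ?_ hy'
    · intro z hz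
      have h1 := congrFun hx ⟨z, hz⟩
      exact (F13_zero hW hX x ⟨z, hb hz⟩).1 h1
    · rw [mul_zero, map_zero]
    · intro z z' _ _ h1 h2
      rw [mul_add, map_add, h1, h2, add_zero]
    · intro c z _ h1
      rw [mul_smul_comm, map_smul, h1, smul_zero]
  have hf : Module.Finite ℚ (W.alg X 1 ⧸ LinearMap.ker g) :=
    Module.Finite.equiv g.quotKerEquivRange.symm
  exact Module.Finite.of_surjective (Submodule.factor hg) (Submodule.factor_surjective hg)

variable (hc : ∀ x ∈ W.gr X 0, ∃ c : ℂ, x = c • (1 : W.coh X))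

include hc in
/-- the Hodge index theorem -/
theorem neg_of {b : N2 hW hX →ₗ[ℚ] N2 hW hX →ₗ[ℚ] ℚ}
    (hb : ∀ x y, b (Submodule.Quotient.mk x) (Submodule.Quotient.mk y) = F22 hW hX x y)
    {ζ : W.coh X} (hζ : ζ ∈ W.alg X 1) (h1 : EQ.Q1Num W X 4 ζ 1) (y : N1 hW hX)
    (hl : b (Lq hW hX hζ (Submodule.Quotient.mk ⟨ζ, hζ⟩)) (Lq hW hX hζ y) = 0) (hy : y ≠ 0) :
    b (Lq hW hX hζ y) (Lq hW hX hζ y) < 0 := by
  obtain ⟨y, rfl⟩ := Submodule.Quotient.mk_surjective _ y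
  have e1 : ζ * ζ * (ζ * y.1) = ζ ^ 3 * y.1 := by rw [← mul_assoc, pow_succ, pow_two]
  have h2 : W.tr X (ζ ^ 3 * y.1) = 0 := by
    have h3 : F22 hW hX (mulL hW hX hζ ⟨ζ, hζ⟩) (mulL hW hX hζ y) = 0 := by
      rw [← hb]
      exact hl
    rw [F22_zero] at h3
    rw [← e1]
    exact h3
  have hm : ζ ^ 3 * y.1 ∈ W.alg X 4 := mem31 hW hX (hW.pow_alg hX hζ 3) y.2
  have h3 : EQ.NumTrivial W X (ζ ^ 3 * y.1) := by
    rw [num_iff hW hX (j := 0) (by norm_num) hm]
    intro z hz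
    obtain ⟨c, rfl⟩ := hc z (hW.alg_gr hX hz)
    rw [mul_smul_comm, mul_one, map_smul, h2, smul_zero]
  have h4 : ¬ EQ.NumTrivial W X y.1 := by
    intro h
    apply hy
    rw [Submodule.Quotient.mk_eq_zero, LinearMap.mem_ker]
    ext z
    rw [LinearMap.zero_apply, F13_zero]
    exact h 3 z.1 z.2
  obtain ⟨r, hr, hr'⟩ := h1 y.1 (by norm_num) y.2 h3 h4
  have e2 : ζ * y.1 * (ζ * y.1) = ζ ^ 2 * (y.1 * y.1) := by
    rw [mul_assoc ζ y.1 (ζ * y.1), ← mul_assoc y.1 ζ y.1, ← hW.alg_comm hX hζ y.1,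
      mul_assoc ζ y.1 y.1, ← mul_assoc ζ ζ, pow_two]
  have e3 : ((F22 hW hX (mulL hW hX hζ y) (mulL hW hX hζ y) : ℚ) : ℂ) = ((-r : ℚ) : ℂ) := by
    rw [F22_cast]
    show W.tr X (ζ * y.1 * (ζ * y.1)) = _
    rw [e2]
    have h5 : (-1 : ℂ) ^ 1 * W.tr X (ζ ^ 2 * (y.1 * y.1)) = (r : ℂ) := hr'
    push_cast
    rw [← h5]
    ring
  have e4 : b (Lq hW hX hζ (Submodule.Quotient.mk y)) (Lq hW hX hζ (Submodule.Quotient.mk y))
      = -r := by
    have h5 := hb (mulL hW hX hζ y) (mulL hW hX hζ y)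
    rw [Rat.cast_injective (α := ℂ) e3] at h5
    exact h5
  rw [e4]
  linarith

include hc in
/-- **Change of the polarisation in dimension four.** -/
theorem pol {η L : W.coh X} (hη : η ∈ W.alg X 1) (hL : L ∈ W.alg X 1)
    (h0 : EQ.Q1Num W X 4 η 0) (h1 : EQ.Q1Num W X 4 η 1) (h2 : EQ.Q1Num W X 4 η 2)
    (hL1 : EQ.Q1Num W X 4 L 1) : EQ.Q1Num W X 4 L 2 := by
  intro x _ hx hprim hx0
  obtain ⟨b, hb⟩ := exists_form hW hX
  have hfin := fin1 hW hX
  have hone : ¬ EQ.NumTrivial W X (1 : W.coh X) := by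
    intro h
    apply hx0
    intro l y hy
    have h3 := h (2 + l) (x * y) (hW.mul_alg hX hx hy)
    have h4 : W.tr X (1 * (x * y)) = 0 := h3
    rw [one_mul] at h4
    exact h4
  -- the polarisation `η` has positive degree
  obtain ⟨a, ha, ha'⟩ : ∃ a : ℚ, 0 < a ∧ W.tr X (η ^ 4) = (a : ℂ) := by
    obtain ⟨a, ha, ha'⟩ := h0 1 (by norm_num) (hW.one_alg hX) (by
      intro l y hy
      refine hW.tr_gr hX (hW.mul_gr hX (hW.mul_gr hX (hW.alg_gr hX (hW.pow_alg hX hη 5))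
        (hW.one_gr hX)) (hW.alg_gr hX hy)) (by omega)) hone
    refine ⟨a, ha, ?_⟩
    have h3 : (-1 : ℂ) ^ 0 * W.tr X (η ^ 4 * (1 * 1)) = (a : ℂ) := ha'
    rwa [pow_zero, one_mul, mul_one, mul_one] at h3
  let e : N1 hW hX := Submodule.Quotient.mk ⟨η, hη⟩
  let lam : ∀ ζ : W.coh X, ζ ∈ W.alg X 1 → (N1 hW hX →ₗ[ℚ] ℚ) := fun ζ hζ =>
    (b (Lq hW hX hζ (Submodule.Quotient.mk ⟨ζ, hζ⟩))) ∘ₗ (Lq hW hX hζ)
  have hneg : ∀ ζ (hζ : ζ ∈ W.alg X 1), EQ.Q1Num W X 4 ζ 1 → ∀ y, lam ζ hζ y = 0 → y ≠ 0 →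
      b (Lq hW hX hζ y) (Lq hW hX hζ y) < 0 := fun ζ hζ h y hy hy0 =>
    neg_of hW hX hc hb hζ h y hy hy0
  have hs : ∀ x y, b x y = b y x := by
    intro x y
    obtain ⟨x, rfl⟩ := Submodule.Quotient.mk_surjective _ x
    obtain ⟨y, rfl⟩ := Submodule.Quotient.mk_surjective _ y
    rw [hb, hb, F22_symm]
  have he : 0 < b (Lq hW hX hη e) (Lq hW hX hη e) := by
    have h3 := hb (mulL hW hX hη ⟨η, hη⟩) (mulL hW hX hη ⟨η, hη⟩)
    have h4 : ((F22 hW hX (mulL hW hX hη ⟨η, hη⟩) (mulL hW hX hη ⟨η, hη⟩) : ℚ) : ℂ)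
        = (a : ℂ) := by
      rw [F22_cast, ← ha']
      show W.tr X (η * η * (η * η)) = _
      rw [← mul_assoc, pow_succ, pow_succ, pow_two]
    rw [Rat.cast_injective (α := ℂ) h4] at h3
    have h5 : b (Lq hW hX hη e) (Lq hW hX hη e) = a := h3
    rw [h5]
    exact ha
  have key : 0 < b (Submodule.Quotient.mk ⟨x, hx⟩) (Submodule.Quotient.mk ⟨x, hx⟩) := by
    refine inertia4 b hs (Lq hW hX hη) (Lq hW hX hL) (lam η hη) (lam L hL) e he (fun y => rfl)
      (hneg η hη h1) (hneg L hL hL1) ?_ ?_ ?_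
    · -- the decomposition
      intro z
      let Φ : N1 hW hX →ₗ[ℚ] Module.Dual ℚ (N1 hW hX) := b.compl₁₂ (Lq hW hX hη) (Lq hW hX hη)
      have hinj : Function.Injective Φ := by
        rw [injective_iff_map_eq_zero]
        intro y hy
        by_contra hy0
        have h3 : lam η hη y = 0 := by
          show b (Lq hW hX hη e) (Lq hW hX hη y) = 0
          rw [hs]
          exact LinearMap.congr_fun hy e
        have h4 := hneg η hη h1 y h3 hy0
        have h5 : b (Lq hW hX hη y) (Lq hW hX hη y) = 0 := LinearMap.congr_fun hy y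
        exact h4.ne h5
      have hsur : Function.Surjective Φ :=
        (LinearMap.injective_iff_surjective_of_finrank_eq_finrank
          (Subspace.dual_finrank_eq (K := ℚ) (V := N1 hW hX)).symm).1 hinj
      obtain ⟨y, hy⟩ := hsur ((b z) ∘ₗ (Lq hW hX hη))
      have hy' : ∀ t, b (z - Lq hW hX hη y) (Lq hW hX hη t) = 0 := by
        intro t
        have h3 : b (Lq hW hX hη y) (Lq hW hX hη t) = b z (Lq hW hX hη t) :=
          LinearMap.congr_fun hy t
        rw [map_sub, LinearMap.sub_apply, h3, sub_self]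
      refine ⟨y, hy', fun hne => ?_⟩
      obtain ⟨t, ht⟩ := Submodule.Quotient.mk_surjective _ (z - Lq hW hX hη y)
      rw [← ht] at hy' hne ⊢
      have h3 : EQ.NumTrivial W X (η ^ 1 * t.1) := by
        rw [pow_one, num_iff hW hX (i := 3) (j := 1) (by norm_num) (mem12 hW hX hη t.2)]
        intro s hs
        have h4 := hy' (Submodule.Quotient.mk ⟨s, hs⟩)
        have h5 : F22 hW hX t (mulL hW hX hη ⟨s, hs⟩) = 0 := by
          rw [← hb]
          exact h4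
        rw [F22_zero] at h5
        have h6 : W.tr X (t.1 * (η * s)) = 0 := h5
        rw [hW.alg_comm hX hη t.1, mul_assoc]
        exact h6
      have h4 : ¬ EQ.NumTrivial W X t.1 := by
        intro h
        apply hne
        rw [Submodule.Quotient.mk_eq_zero, LinearMap.mem_ker]
        ext s
        rw [LinearMap.zero_apply, F22_zero]
        exact h 2 s.1 s.2
      obtain ⟨r, hr, hr'⟩ := h2 t.1 (by norm_num) t.2 h3 h4
      rw [hb]
      have h5 : ((F22 hW hX t t : ℚ) : ℂ) = (r : ℂ) := by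
        rw [F22_cast, ← hr']
        show _ = (-1 : ℂ) ^ 2 * W.tr X (η ^ 0 * (t.1 * t.1))
        rw [pow_zero, one_mul, neg_one_sq, one_mul]
      rw [Rat.cast_injective (α := ℂ) h5]
      exact hr
    · -- orthogonality
      intro y
      obtain ⟨y, rfl⟩ := Submodule.Quotient.mk_surjective _ y
      have h3 : F22 hW hX ⟨x, hx⟩ (mulL hW hX hL y) = 0 := by
        rw [F22_zero]
        show W.tr X (x * (L * y.1)) = 0
        have h4 : W.tr X (L ^ 1 * x * y.1) = 0 := hprim 1 y.1 y.2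
        rw [pow_one, hW.alg_comm hX hL x, mul_assoc] at h4
        exact h4
      rw [← hb] at h3
      exact h3
    · intro h
      rw [Submodule.Quotient.mk_eq_zero, LinearMap.mem_ker] at h
      apply hx0
      rw [num_iff hW hX (i := 2) (j := 2) (by norm_num) hx]
      intro y hy
      rw [← F22_zero hW hX ⟨x, hx⟩ ⟨y, hy⟩, h, LinearMap.zero_apply]
  rw [hb] at key
  refine ⟨_, key, ?_⟩
  rw [F22_cast]
  show (-1 : ℂ) ^ 2 * W.tr X (L ^ 0 * (x * x)) = _
  rw [pow_zero, one_mul, neg_one_sq, one_mul]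

end D4

end CW

end Pool.Agent.Lib.MP_361a6f_ag.FL
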