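import Pool.Agent.Lib.MP_361a6f_ag.FL.CW.Ps
import Pool.Agent.Lib.MP_361a6f_ag.FL.CW.Defs
import Pool.Agent.Lib.MP_361a6f_ag.FL.CV.Cc
import Pool.Agent.Lib.MP_361a6f_ag.FL.CV.CC0

/-!
# The piece of the middle degree
-/

open CategoryTheory AlgebraicGeometry MonoidalCategory CartesianMonoidalCategory

universe u v w w'

set_option autoImplicit false
set_option linter.unusedSectionVars false

namespace Pool.Agent.Lib.MP_361a6f_ag.FL.CW

open Pool.Agent.Lib.MP_361a6f_ag.H3 Pool.Agent.Lib.MP_361a6f_ag.SQ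
  Pool.Agent.Lib.MP_361a6f_ag.PP Pool.Agent.Lib.MP_361a6f_ag.FL.PTG
open CV (crd cd_psi cd_exp cd_off cd_gr cd_e)

noncomputable section

variable {k : Type u} [Field k] {m : ℕ} {W : CohomologyData.{u, 0, w} k ℂ} {𝒱 : VarietyClass k}
  (H : Host W 𝒱 m)

/-- the real span of the correspondences -/
def Sp : Submodule ℝ (Matrix H.I H.I ℂ) :=
  Submodule.span ℝ {M | ∃ z, z ∈ H.At 2 ∧ M = E.opM H.D z}

/-- the tensor of a class on `Y × X` -/
def T2 (a o : Fin m) (z : W.coh ((H.X a).prod (H.X o))) : Ten H.I 2 :=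
  H.tc (.prod (.leaf a) (.leaf o)) z

theorem opM_swap (u : Ten H.I 2) (x i : H.I) :
    E.opM H.D (permT (Equiv.swap 0 1) u) x i = u ![H.D.τ i, x] * H.D.s i := by
  show (permT (Equiv.swap 0 1) u) ![x, H.D.τ i] * H.D.s i = _
  have h1 : (permT (Equiv.swap 0 1) u) ![x, H.D.τ i] = u ![H.D.τ i, x] := by
    rw [permT]
    congr 1
    funext l
    fin_cases l <;> rfl
  rw [h1]

/-- the middle piece from a projection `π` and an operator `R` -/
theorem mid_of {o a : Fin m} {z : W.coh ((H.X a).prod (H.X o))}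
    (hMA : ∀ v ∈ W.gr (H.X a) (H.n a), H.ξ a * v = 0 → ∀ x, crd H o x (EQ.corr W z v)
      = PP.sgn (H.n a) * ∑ y, T2 H a o z ![y, x] * H.D.s (H.D.τ y) * crd H a (H.D.τ y) v)
    (hgr : ∀ v ∈ W.gr (H.X a) (H.n a), H.ξ a * v = 0 → EQ.corr W z v ∈ W.gr (H.X o) (H.n a))
    (hz : E.opM H.D (permT (Equiv.swap 0 1) (T2 H a o z)) ∈ Sp H)
    (hmul : ∀ M N : Matrix H.I H.I ℂ, M ∈ Sp H → N ∈ Sp H → M * N ∈ Sp H)
    {π : W.coh (H.X a) → W.coh (H.X a)} {M : Matrix H.I H.I ℂ} (hM : M ∈ Sp H)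
    (hM1 : ∀ i j, H.D.typ j = (a, H.n a) → M i j = crd H a i (π (H.e a j)))
    (hM0 : ∀ i j, H.D.typ j ≠ (a, H.n a) → M i j = 0)
    (hπ : ∀ v ∈ W.gr (H.X a) (H.n a), π v ∈ W.gr (H.X a) (H.n a) ∧ H.ξ a * π v = 0)
    {R : W.coh (H.X a) → W.coh (H.X o)} {N : Matrix H.I H.I ℂ} (hN : N ∈ Sp H)
    (hN1 : ∀ i j, H.D.typ j = (a, H.n a) → N i j = crd H o i (R (H.e a j)))
    (hN0 : ∀ i j, H.D.typ j ≠ (a, H.n a) → N i j = 0)
    (hR : ∀ v ∈ W.gr (H.X a) (H.n a), R v ∈ W.gr (H.X o) (H.n a)) (κ : ℝ)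
    (hψ : ∀ v w, v ∈ W.gr (H.X a) (H.n a) → w ∈ W.gr (H.X a) (H.n a) →
      ps H o ((κ : ℂ) • EQ.corr W z (π v) + R v) ((κ : ℂ) • EQ.corr W z (π w) + R w)
        = ps H a v w) : Pc H o a (H.n a) := by
  obtain ⟨ε, hε, hs⟩ := exists_sgn (H.n a)
  refine ⟨(κ * ε) • (E.opM H.D (permT (Equiv.swap 0 1) (T2 H a o z)) * M) + N,
    Submodule.add_mem _ (Submodule.smul_mem _ _ (hmul _ _ hz hM)) hN,
    iso_of H (fun v => (κ : ℂ) • EQ.corr W z (π v) + R v) ?_ hψ ?_ ?_⟩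
  · intro v hv
    exact Submodule.add_mem _ (Submodule.smul_mem _ _ (hgr _ (hπ v hv).1 (hπ v hv).2)) (hR v hv)
  · intro x j hj
    have hej := e_gr' H a hj
    have h1 : (E.opM H.D (permT (Equiv.swap 0 1) (T2 H a o z)) * M) x j
        = PP.sgn (H.n a) * crd H o x (EQ.corr W z (π (H.e a j))) := by
      rw [hMA _ (hπ _ hej).1 (hπ _ hej).2, ← mul_assoc, sgn_sq, one_mul, Matrix.mul_apply]
      let τe : H.I ≃ H.I := ⟨H.D.τ, H.D.τ, H.D.τ_τ, H.D.τ_τ⟩
      rw [← τe.sum_comp]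
      refine Finset.sum_congr rfl fun y _ => ?_
      show E.opM H.D (permT (Equiv.swap 0 1) (T2 H a o z)) x (H.D.τ y) * M (H.D.τ y) j = _
      rw [opM_swap, H.D.τ_τ, hM1 _ _ hj]
    rw [Matrix.add_apply, Matrix.smul_apply, h1, hN1 _ _ hj, map_add, map_smul, smul_eq_mul,
      Complex.real_smul, hs]
    have h2 : (ε : ℂ) * ε = 1 := by exact_mod_cast hε
    push_cast
    linear_combination ((κ : ℂ) * crd H o x (EQ.corr W z (π (H.e a j)))) * h2
  · intro x j hj
    rw [Matrix.add_apply, Matrix.smul_apply, hN0 _ _ hj, Matrix.mul_apply,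
      Finset.sum_eq_zero fun y _ => by rw [hM0 _ _ hj, mul_zero], smul_zero, add_zero]

/-- the scalar for the primitive classes -/
theorem exists_scalar {o a : Fin m} (hF : Fac W 𝒱 H.X H.n H.ξ o) (hle : H.n a ≤ H.n o)
    {z : W.coh ((H.X a).prod (H.X o))}
    (hgr : ∀ v ∈ W.gr (H.X a) (H.n a), H.ξ a * v = 0 → EQ.corr W z v ∈ W.gr (H.X o) (H.n a))
    (hz : ∀ x, W.Deg (H.X a) (H.n a) x → W.cup (H.ξ a) x = 0 →
      W.cup (H.ξ o ^ (H.n o - H.n a + 1)) (EQ.corr W z x) = 0 ∧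
      ∀ y, W.Deg (H.X a) (H.n a) y → W.cup (H.ξ a) y = 0 →
        W.Tr (W.cup (H.ξ o ^ (H.n o - H.n a)) (W.cup (EQ.corr W z x) (EQ.corr W z y)))
          = W.Tr (W.cup x y)) :
    ∃ κ : ℝ, ∀ x y, x ∈ W.gr (H.X a) (H.n a) → y ∈ W.gr (H.X a) (H.n a) → H.ξ a * x = 0 →
      H.ξ a * y = 0 →
      ps H o ((κ : ℂ) • EQ.corr W z x) ((κ : ℂ) • EQ.corr W z y) = ps H a x y := by
  obtain ⟨r, hr, h1⟩ := psi_prim H.hW (H.mem o) (hF.div o) (H.lam o) hle
  obtain ⟨r', hr', h2⟩ := psi_prim H.hW (H.mem a) (hF.div a) (H.lam a) (le_refl (H.n a))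
  have hκ : ((Real.sqrt (r' / r) : ℝ) : ℂ) * ((Real.sqrt (r' / r) : ℝ) : ℂ) * r = r' := by
    have h3 : Real.sqrt (r' / r) * Real.sqrt (r' / r) * r = r' := by
      rw [Real.mul_self_sqrt (by positivity)]
      field_simp
    exact_mod_cast h3
  refine ⟨Real.sqrt (r' / r), fun x y hx hy hpx hpy => ?_⟩
  have h3 : W.tr (H.X o) (H.ξ o ^ (H.n o - H.n a) * (EQ.corr W z x * EQ.corr W z y))
      = W.tr (H.X a) (x * y) := (hz x hx hpx).2 y hy hpy
  have h4 : H.ξ o ^ (H.n o - H.n a + 1) * EQ.corr W z y = 0 := (hz y hy hpy).1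
  have h5 : H.ξ a ^ (H.n a - H.n a + 1) * y = 0 := by
    rw [Nat.sub_self, zero_add, pow_one]
    exact hpy
  have h6 : ps H o (EQ.corr W z x) (EQ.corr W z y)
      = r * PP.sgn (H.n a) * W.tr (H.X a) (x * y) := by
    rw [← h3]
    exact h1 _ _ (hgr y hy hpy) h4
  have h7 : ps H a x y = r' * PP.sgn (H.n a) * W.tr (H.X a) (x * y) := by
    have h8 := h2 x y hy h5
    rwa [Nat.sub_self, pow_zero, one_mul] at h8
  rw [ps_smul, ps_smul', h6, h7]
  linear_combination (PP.sgn (H.n a) * W.tr (H.X a) (x * y)) * hκ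

/-- `ψ` is symmetric in even degrees -/
theorem ps_symm {b : Fin m} {d : ℕ} (hd : Even d) {v w : W.coh (H.X b)}
    (hv : v ∈ W.gr (H.X b) d) (hw : w ∈ W.gr (H.X b) d) : ps H b v w = ps H b w v := by
  rw [ps_crd, ps_crd]
  refine Finset.sum_congr rfl fun x _ => ?_
  by_cases hx : H.D.typ x = (b, d)
  · have h1 : H.D.τ x = x := by
      refine (H.D.even_τ x ?_).1
      rw [hx, H.odd_iff]
      exact Nat.not_odd_iff_even.2 hd
    rw [h1]
    ring
  · have h1 : ∀ v ∈ W.gr (H.X b) d, crd H b x v = 0 := by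
      intro v hv
      by_contra h
      exact hx (cd_typ H b hv h)
    rw [h1 v hv, h1 w hw]
    ring

/-- **The middle piece**, from the coordinates of `z_*`. -/
theorem mid_piece {o a : Fin m} (hF : Fac W 𝒱 H.X H.n H.ξ o) (ha : a ≠ o)
    {z : W.coh ((H.X a).prod (H.X o))}
    (hMA : ∀ v ∈ W.gr (H.X a) (H.n a), H.ξ a * v = 0 → ∀ x, crd H o x (EQ.corr W z v)
      = PP.sgn (H.n a) * ∑ y, T2 H a o z ![y, x] * H.D.s (H.D.τ y) * crd H a (H.D.τ y) v)
    (hgr : ∀ v ∈ W.gr (H.X a) (H.n a), H.ξ a * v = 0 → EQ.corr W z v ∈ W.gr (H.X o) (H.n a))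
    (hreal : E.opM H.D (permT (Equiv.swap 0 1) (T2 H a o z)) ∈ Sp H)
    (hmul : ∀ M N : Matrix H.I H.I ℂ, M ∈ Sp H → N ∈ Sp H → M * N ∈ Sp H)
    (hz : ∀ x, W.Deg (H.X a) (H.n a) x → W.cup (H.ξ a) x = 0 →
      W.cup (H.ξ o ^ (H.n o - H.n a + 1)) (EQ.corr W z x) = 0 ∧
      ∀ y, W.Deg (H.X a) (H.n a) y → W.cup (H.ξ a) y = 0 →
        W.Tr (W.cup (H.ξ o ^ (H.n o - H.n a)) (W.cup (EQ.corr W z x) (EQ.corr W z y)))
          = W.Tr (W.cup x y)) : Pc H o a (H.n a) := by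
  have hmid := (hF.mid a ha).mid
  have hle := (hF.mid a ha).le
  obtain ⟨κ, hκ⟩ := exists_scalar H hF hle hgr hz
  have hom : E.opM H.D (om H.D (a, H.n a)) ∈ Sp H :=
    Submodule.subset_span ⟨om H.D (a, H.n a), (aSys_at (at_ H)).om _, rfl⟩
  have hξ2 : H.ξ a ∈ W.gr (H.X a) (2 * 1) := H.hW.alg_gr (H.mem a) (hF.div a).1
  rcases Nat.even_or_odd (H.n a) with hev | hodd
  · -- even degree
    obtain ⟨s, hs⟩ := hev
    have hs2 : H.n a = 2 * s := by omega
    have hs0 : 0 < s := by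
      have := hmid.1
      omega
    obtain ⟨ro, hro, hUU⟩ := CV.CC0.psi_pow H.hW (H.mem o) (hF.div o) (H.lam o) (s := s)
      (by omega)
    obtain ⟨ra, hra, hVV⟩ := CV.CC0.psi_pow H.hW (H.mem a) (hF.div a) (H.lam a) (s := s)
      (by omega)
    have hra0 : (ra : ℂ) ≠ 0 := by exact_mod_cast hra.ne'
    have halg : ∀ b, H.ξ b ^ s ∈ W.alg (H.X b) s := fun b =>
      H.hW.pow_alg (H.mem b) (hF.div b).1 s
    have hgrp : ∀ b, H.ξ b ^ s ∈ W.gr (H.X b) (H.n a) := fun b => by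
      rw [hs2]
      exact H.hW.alg_gr (H.mem b) (halg b)
    set V := H.ξ a ^ s with hV
    set U := H.ξ o ^ s with hU
    have hVV' : ps H a V V = (ra : ℂ) := hVV
    have hUU' : ps H o U U = (ro : ℂ) := hUU
    let π : W.coh (H.X a) → W.coh (H.X a) := fun v => v - ((ra : ℂ)⁻¹ * ps H a V v) • V
    -- `π v` is primitive
    have hVπ : ∀ v, ps H a V (π v) = 0 := by
      intro v
      show ps H a V (v - ((ra : ℂ)⁻¹ * ps H a V v) • V) = 0
      rw [sub_eq_add_neg, ← neg_smul, ps_add', ps_smul', hVV']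
      field_simp
      ring
    have hsym : ∀ v ∈ W.gr (H.X a) (H.n a), ps H a V v = 0 → W.tr (H.X a) (V * v) = 0 := by
      intro v hv h0
      rw [ps_symm H (by rw [hs2]; exact even_two_mul s) (hgrp a) hv] at h0
      obtain ⟨q, hq, h1⟩ := HrPsi.star_str (H.lam a).slm (i := 0) (v := (1 : W.coh (H.X a)))
        (Nat.zero_le _) (H.hW.one_gr (H.mem a))
        ((H.lam a).slm.Λ_low 0 1 (by norm_num) (H.hW.one_gr (H.mem a))) s (by omega)
      have h2 : ∀ t : ℕ, ((Lop W (H.X a) (H.ξ a)) ^ t) (1 : W.coh (H.X a)) = H.ξ a ^ t := by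
        intro t
        rw [Lop, LinearMap.pow_mulLeft, LinearMap.mulLeft_apply, mul_one]
      have h3 : PP.sgn 0 = 1 := by simp [PP.sgn]
      rw [h2, h2, show H.n a - 0 - s = s by omega, h3, one_mul] at h1
      have h4 : ps H a v V = (q : ℂ) * W.tr (H.X a) (v * V) := by
        rw [ps, psi, hV, h1, mul_smul_comm, map_smul, smul_eq_mul]
      have h5 : (q : ℂ) ≠ 0 := by exact_mod_cast hq.ne'
      rw [h4] at h0
      rw [hV, xi_comm H.hW (H.mem a) (hF.div a), ← hV]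
      exact (mul_eq_zero.1 h0).resolve_left h5
    have hπ : ∀ v ∈ W.gr (H.X a) (H.n a), π v ∈ W.gr (H.X a) (H.n a) ∧ H.ξ a * π v = 0 := by
      intro v hv
      have h1 : π v ∈ W.gr (H.X a) (H.n a) :=
        Submodule.sub_mem _ hv (Submodule.smul_mem _ _ (hgrp a))
      refine ⟨h1, ?_⟩
      have h2 : H.ξ a * π v ∈ W.gr (H.X a) (2 * 1 + H.n a) := H.hW.mul_gr (H.mem a) hξ2 h1
      rcases hmid.2 (2 * 1 + H.n a) _ (by omega) h2 with h3 | ⟨r, c, h3, h4⟩
      · exact h3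
      · have h5 : r = s + 1 := by omega
        subst h5
        have h6 : H.ξ a * π v = c • H.ξ a ^ (s + 1) := h4
        have h7 : W.tr (H.X a) (V * π v) = 0 := hsym _ h1 (hVπ v)
        have h8 : V * π v = c • H.ξ a ^ (H.n a) := by
          rw [hV, show H.ξ a ^ s * π v = H.ξ a ^ (s - 1) * (H.ξ a * π v) by
            rw [← mul_assoc, ← pow_succ, Nat.sub_add_cancel hs0], h6, mul_smul_comm, ← pow_add,
            show s - 1 + (s + 1) = H.n a by omega]
        obtain ⟨q, hq, h9⟩ := (hF.div a).2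
        have h10 : W.tr (H.X a) (H.ξ a ^ (H.n a)) = (q : ℂ) := h9
        rw [h8, map_smul, h10, smul_eq_mul] at h7
        have h11 : (q : ℂ) ≠ 0 := by exact_mod_cast hq.ne'
        have h12 : c = 0 := (mul_eq_zero.1 h7).resolve_right h11
        rw [h6, h12, zero_smul]
    -- the second scalar
    set c : ℝ := (Real.sqrt (ro * ra))⁻¹ with hc
    have hcc : (c : ℂ) * c * ro * ra = 1 := by
      have h1 : c * c * (ro * ra) = 1 := by
        have h2 : Real.sqrt (ro * ra) * Real.sqrt (ro * ra) = ro * ra :=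
          Real.mul_self_sqrt (by positivity)
        have h3 : Real.sqrt (ro * ra) ≠ 0 := by positivity
        rw [hc]
        nth_rewrite 3 [← h2]
        field_simp
      rw [mul_assoc]
      exact_mod_cast h1
    have hevτ : ∀ i, H.D.typ i = (a, H.n a) → H.D.τ i = i ∧ H.D.s i = 1 := by
      intro i hi
      refine H.D.even_τ i ?_
      rw [hi, H.odd_iff]
      show ¬ Odd (H.n a)
      rw [Nat.not_odd_iff_even, hs2]
      exact even_two_mul s
    have hVj : ∀ j, H.D.typ j = (a, H.n a) → crd H a (H.D.τ j) V * H.D.s j = ps H a V (H.e a j) := by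
      intro j hj
      rw [ps_e, (hevτ j hj).1, (hevτ j hj).2]
      ring
    have hVj0 : ∀ j, H.D.typ j ≠ (a, H.n a) → crd H a (H.D.τ j) V = 0 := by
      intro j hj
      by_contra h
      apply hj
      rw [← H.D.typ_τ]
      exact cd_typ H a (hgrp a) h
    refine mid_of H hMA hgr hreal hmul (π := π)
      (M := E.opM H.D (om H.D (a, H.n a)) - (ra⁻¹ : ℝ) • E.opM H.D (outer (p := 1) (q := 1)
        (H.tc (.leaf a) V) (H.tc (.leaf a) V)))
      (Submodule.sub_mem _ hom (Submodule.smul_mem _ _ (Submodule.subset_span ⟨_,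
        CV.CC0.mem_at H (at_ H) (alg_le_tot H.hW _ _ (halg a)) (alg_le_tot H.hW _ _ (halg a)),
        rfl⟩))) ?_ ?_ hπ
      (R := fun v => ((c : ℂ) * ps H a V v) • U)
      (N := (c : ℝ) • E.opM H.D (outer (p := 1) (q := 1) (H.tc (.leaf o) U) (H.tc (.leaf a) V)))
      (Submodule.smul_mem _ _ (Submodule.subset_span ⟨_,
        CV.CC0.mem_at H (at_ H) (alg_le_tot H.hW _ _ (halg o)) (alg_le_tot H.hW _ _ (halg a)),
        rfl⟩)) ?_ ?_ (fun v _ => Submodule.smul_mem _ _ (hgrp o)) κ ?_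
    · intro i j hj
      rw [Matrix.sub_apply, Matrix.smul_apply, CV.opM_om_apply, CV.CC0.opM_outer,
        Complex.real_smul]
      show (if H.D.typ i = (a, H.n a) ∧ i = j then (1 : ℂ) else 0) -
        ((ra⁻¹ : ℝ) : ℂ) * (crd H a i V * (crd H a (H.D.τ j) V * H.D.s j))
          = crd H a i (H.e a j - ((ra : ℂ)⁻¹ * ps H a V (H.e a j)) • V)
      rw [hVj j hj, map_sub, map_smul, cd_e, smul_eq_mul, hj]
      have h1 : (if H.D.typ i = (a, H.n a) ∧ i = j then (1 : ℂ) else 0)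
          = if (a, H.n a).1 = a ∧ i = j then 1 else 0 := by
        by_cases h : i = j
        · rw [if_pos ⟨by rw [h, hj], h⟩, if_pos ⟨rfl, h⟩]
        · rw [if_neg fun h' => h h'.2, if_neg fun h' => h h'.2]
      rw [h1]
      push_cast
      ring
    · intro i j hj
      rw [Matrix.sub_apply, Matrix.smul_apply, CV.opM_om_apply, CV.CC0.opM_outer,
        Complex.real_smul]
      show (if H.D.typ i = (a, H.n a) ∧ i = j then (1 : ℂ) else 0) -
        ((ra⁻¹ : ℝ) : ℂ) * (crd H a i V * (crd H a (H.D.τ j) V * H.D.s j)) = 0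
      have h1 : ¬ (H.D.typ i = (a, H.n a) ∧ i = j) := by
        rintro ⟨h2, rfl⟩
        exact hj h2
      rw [hVj0 j hj, if_neg h1]
      ring
    · intro i j hj
      rw [Matrix.smul_apply, CV.CC0.opM_outer, Complex.real_smul]
      show (c : ℂ) * (crd H o i U * (crd H a (H.D.τ j) V * H.D.s j))
        = crd H o i (((c : ℂ) * ps H a V (H.e a j)) • U)
      rw [hVj j hj, map_smul, smul_eq_mul]
      ring
    · intro i j hj
      rw [Matrix.smul_apply, CV.CC0.opM_outer, Complex.real_smul]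
      show (c : ℂ) * (crd H o i U * (crd H a (H.D.τ j) V * H.D.s j)) = 0
      rw [hVj0 j hj]
      ring
    · intro v w hv hw
      have h1 := hκ (π v) (π w) (hπ v hv).1 (hπ w hw).1 (hπ v hv).2 (hπ w hw).2
      have hcro : ∀ v ∈ W.gr (H.X a) (H.n a),
          ps H o (EQ.corr W z (π v)) U = 0 ∧ ps H o U (EQ.corr W z (π v)) = 0 := by
        intro v hv
        have h2 := hgr _ (hπ v hv).1 (hπ v hv).2
        have h3 := (hz _ (hπ v hv).1 (hπ v hv).2).1
        rw [hs2] at h2 h3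
        exact psi_cross H.hW (H.mem o) (hF.div o) (H.lam o) hs0 (by omega) h2 h3
      have hcra : ∀ v ∈ W.gr (H.X a) (H.n a),
          ps H a (π v) V = 0 ∧ ps H a V (π v) = 0 := by
        intro v hv
        have h2 := (hπ v hv).1
        rw [hs2] at h2
        refine psi_cross H.hW (H.mem a) (hF.div a) (H.lam a) hs0 (by omega) h2 ?_
        rw [hs2, Nat.sub_self, zero_add, pow_one]
        exact (hπ v hv).2
      have hdec : ∀ v, v = π v + ((ra : ℂ)⁻¹ * ps H a V v) • V := by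
        intro v
        show v = v - ((ra : ℂ)⁻¹ * ps H a V v) • V + ((ra : ℂ)⁻¹ * ps H a V v) • V
        rw [sub_add_cancel]
      have h4 : ps H a v w = ps H a (π v) (π w)
          + (ra : ℂ)⁻¹ * ps H a V v * ps H a V w := by
        conv_lhs => rw [hdec v, hdec w]
        rw [ps_add, ps_add', ps_add', ps_smul, ps_smul', ps_smul', ps_smul, (hcra v hv).1,
          (hcra w hw).2, hVV']
        field_simp
        ring
      rw [h4, ← h1]
      simp only [ps_add, ps_add', ps_smul, ps_smul', (hcro v hv).1, (hcro w hw).2, hUU']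
      have h5 : (c : ℂ) * c * ro = (ra : ℂ)⁻¹ := by
        exact eq_inv_of_mul_eq_one_left hcc
      linear_combination (ps H a V v * ps H a V w) * h5
  · -- odd degree
    have hprim : ∀ v ∈ W.gr (H.X a) (H.n a), H.ξ a * v = 0 := by
      intro v hv
      have h2 : H.ξ a * v ∈ W.gr (H.X a) (2 * 1 + H.n a) := H.hW.mul_gr (H.mem a) hξ2 hv
      rcases hmid.2 (2 * 1 + H.n a) _ (by omega) h2 with h3 | ⟨r, c, h3, h4⟩
      · exact h3
      · exfalso
        obtain ⟨t, ht⟩ := hodd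
        omega
    refine mid_of H hMA hgr hreal hmul (π := fun v => v) (M := E.opM H.D (om H.D (a, H.n a))) hom
      ?_ ?_ (fun v hv => ⟨hv, hprim v hv⟩) (R := fun _ => 0) (N := 0) (zero_mem _)
      (fun i j _ => by rw [map_zero]; rfl) (fun i j _ => rfl) (fun v _ => zero_mem _) κ ?_
    · intro i j hj
      rw [CV.opM_om_apply, cd_e, hj]
      by_cases h : i = j
      · rw [if_pos ⟨by rw [h, hj], h⟩, if_pos ⟨rfl, h⟩]
      · rw [if_neg fun h' => h h'.2, if_neg fun h' => h h'.2]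
    · intro i j hj
      have h1 : ¬ (H.D.typ i = (a, H.n a) ∧ i = j) := by
        rintro ⟨h2, rfl⟩
        exact hj h2
      rw [CV.opM_om_apply, if_neg h1]
    · intro v w hv hw
      rw [add_zero, add_zero]
      exact hκ v w hv hw (hprim v hv) (hprim w hw)

end

end Pool.Agent.Lib.MP_361a6f_ag.FL.CW
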