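import Pool.Agent.Lib.MP_361a6f_ag.FL.CV.CC1

/-!
# The form `ψ` on the primitive classes of one degree, and isometries from operators
-/

open CategoryTheory AlgebraicGeometry MonoidalCategory CartesianMonoidalCategory

universe u v w w'

set_option autoImplicit false
set_option linter.unusedSectionVars false

namespace Pool.Agent.Lib.MP_361a6f_ag.FL.CW

open Pool.Agent.Lib.MP_361a6f_ag.H3 Pool.Agent.Lib.MP_361a6f_ag.SQ
  Pool.Agent.Lib.MP_361a6f_ag.PP Pool.Agent.Lib.MP_361a6f_ag.FL.PTG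
open Pool.Agent.Lib.MP_361a6f_ag.FL.E (Psi_apply)
open CV (crd cd_psi cd_exp cd_off cd_gr cd_e)

noncomputable section

section one

variable {k : Type u} [Field k] {W : CohomologyData.{u, 0, w} k ℂ} {𝒱 : VarietyClass k}
  (hW : IsWeilCohomology W 𝒱) {X : Sch k} {n : ℕ} (hX : 𝒱.mem X n) {ξ : W.coh X}
  (hξ : PositiveDivisor W X n ξ)

theorem sgn_sq (i : ℕ) : PP.sgn i * PP.sgn i = 1 := by
  rw [PP.sgn, ← mul_pow]
  norm_num

theorem exists_sgn (i : ℕ) : ∃ ε : ℝ, ε * ε = 1 ∧ PP.sgn i = (ε : ℂ) := by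
  refine ⟨(-1) ^ (i * (i + 1) / 2), ?_, ?_⟩
  · rw [← mul_pow]
    norm_num
  · rw [PP.sgn]
    push_cast
    rfl

include hW hX hξ

theorem xi_comm (r : ℕ) (x : W.coh X) : ξ ^ r * x = x * ξ ^ r := by
  induction r with
  | zero => simp
  | succ r ih => rw [pow_succ, mul_assoc, hW.alg_comm hX hξ.1 x, ← mul_assoc, ih, mul_assoc]

/-- `ψ(x, y)` for `y` primitive of degree `i` -/
theorem psi_prim {Lam : Module.End ℂ (W.coh X)} (D : LamData W X n ξ Lam) {i : ℕ} (hi : i ≤ n) :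
    ∃ r : ℝ, 0 < r ∧ ∀ x y, y ∈ W.gr X i → ξ ^ (n - i + 1) * y = 0 →
      psi W X ξ Lam D.slm.internal x y = r * PP.sgn i * W.tr X (ξ ^ (n - i) * (x * y)) := by
  refine ⟨(((n - i).factorial : ℝ))⁻¹, by positivity, fun x y hy hp => ?_⟩
  have hΛ : Lam y = 0 := by
    refine (sl2 D.slm).2.2.2.2.2.1 i y hi hy ?_
    rw [PSI.Lop_pow hW hX]
    exact hp
  have h2 : star D.slm.internal (Lop W X ξ) Lam y
      = (PP.sgn i * ((n - i).factorial : ℂ)⁻¹) • (Lop W X ξ ^ (n - i)) y := by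
    rw [PP.star, Module.End.mul_apply, gop_apply _ _ hy, map_smul,
      (wey D.slm).2.2.2.2 i y hi hy hΛ, smul_smul]
  have h3 : x * (ξ ^ (n - i) * y) = ξ ^ (n - i) * (x * y) := by
    rw [← mul_assoc, ← xi_comm hW hX hξ, mul_assoc]
  rw [psi, h2, PSI.Lop_pow hW hX, mul_smul_comm, map_smul, smul_eq_mul, h3]
  push_cast
  ring

/-- the primitive classes of even degree `2 s > 0` are orthogonal to `ξ ^ s` -/
theorem psi_cross {Lam : Module.End ℂ (W.coh X)} (D : LamData W X n ξ Lam) {s : ℕ} (hs : 0 < s)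
    (hn : 2 * s ≤ n) {x : W.coh X} (hx : x ∈ W.gr X (2 * s)) (hp : ξ ^ (n - 2 * s + 1) * x = 0) :
    psi W X ξ Lam D.slm.internal x (ξ ^ s) = 0 ∧ psi W X ξ Lam D.slm.internal (ξ ^ s) x = 0 := by
  have h2 : ∀ t : ℕ, ((Lop W X ξ) ^ t) (1 : W.coh X) = ξ ^ t := by
    intro t
    rw [Lop, LinearMap.pow_mulLeft, LinearMap.mulLeft_apply, mul_one]
  constructor
  · obtain ⟨c, hc, h1⟩ := HrPsi.star_str D.slm (i := 0) (v := (1 : W.coh X)) (Nat.zero_le n)
      (hW.one_gr hX) (D.slm.Λ_low 0 1 (by norm_num) (hW.one_gr hX)) s (by omega)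
    rw [h2, h2] at h1
    have h3 : x * ξ ^ (n - 0 - s) = 0 := by
      rw [← xi_comm hW hX hξ, show n - 0 - s = (s - 1) + (n - 2 * s + 1) by omega, pow_add,
        mul_assoc, hp, mul_zero]
    rw [psi, h1, mul_smul_comm, h3, smul_zero, map_zero]
  · obtain ⟨r, -, h⟩ := psi_prim hW hX hξ D hn
    rw [h _ _ hx hp]
    have h3 : ξ ^ (n - 2 * s) * (ξ ^ s * x) = 0 := by
      rw [← mul_assoc, ← pow_add, show n - 2 * s + s = (s - 1) + (n - 2 * s + 1) by omega, pow_add,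
        mul_assoc, hp, mul_zero]
    rw [h3, map_zero, mul_zero]

end one

section mat

variable {k : Type u} [Field k] {m : ℕ} {W : CohomologyData.{u, 0, w} k ℂ} {𝒱 : VarietyClass k}
  (H : Host W 𝒱 m)

/-- the form `ψ` on one factor -/
abbrev ps (b : Fin m) (U V : W.coh (H.X b)) : ℂ :=
  psi W (H.X b) (H.ξ b) (H.Lam b) (H.lam b).slm.internal U V

theorem ps_add (b : Fin m) (U U' V : W.coh (H.X b)) : ps H b (U + U') V = ps H b U V + ps H b U' V := by
  rw [ps, psi, add_mul, map_add]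
  rfl

theorem ps_add' (b : Fin m) (U V V' : W.coh (H.X b)) : ps H b U (V + V') = ps H b U V + ps H b U V' := by
  rw [ps, psi, map_add, mul_add, map_add]
  rfl

theorem ps_smul (b : Fin m) (c : ℂ) (U V : W.coh (H.X b)) : ps H b (c • U) V = c * ps H b U V := by
  rw [ps, psi, smul_mul_assoc, map_smul]
  rfl

theorem ps_smul' (b : Fin m) (c : ℂ) (U V : W.coh (H.X b)) : ps H b U (c • V) = c * ps H b U V := by
  rw [ps, psi, map_smul, mul_smul_comm, map_smul]
  rfl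

theorem ps_sum' (b : Fin m) {ι : Type*} (s : Finset ι) (U : W.coh (H.X b)) (f : ι → W.coh (H.X b)) :
    ps H b U (∑ i ∈ s, f i) = ∑ i ∈ s, ps H b U (f i) := by
  rw [ps, psi, map_sum, Finset.mul_sum, map_sum]
  rfl

theorem s_sq (x : H.I) : H.D.s x * H.D.s x = 1 := CV.s_sq' H x

theorem ps_e (b : Fin m) (U : W.coh (H.X b)) (y : H.I) :
    ps H b U (H.e b y) = H.D.s (H.D.τ y) * crd H b (H.D.τ y) U := by
  rw [cd_psi, H.D.τ_τ, ← mul_assoc, s_sq, one_mul]

/-- `ψ` in coordinates on one factor -/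
theorem ps_crd (b : Fin m) (U V : W.coh (H.X b)) :
    ps H b U V = ∑ x, crd H b x U * H.D.s x * crd H b (H.D.τ x) V := by
  let τe : H.I ≃ H.I := ⟨H.D.τ, H.D.τ, H.D.τ_τ, H.D.τ_τ⟩
  conv_lhs => rw [cd_exp H b V, ps_sum']
  rw [← τe.sum_comp]
  refine Finset.sum_congr rfl fun x _ => ?_
  rw [ps_smul', ps_e]
  show crd H b (H.D.τ x) V * (H.D.s (H.D.τ (H.D.τ x)) * crd H b (H.D.τ (H.D.τ x)) U) = _
  rw [H.D.τ_τ]
  ring

theorem cd_typ (b : Fin m) {x : H.I} {i : ℕ} {v : W.coh (H.X b)} (hv : v ∈ W.gr (H.X b) i)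
    (h : crd H b x v ≠ 0) : H.D.typ x = (b, i) := by
  have h1 : (H.D.typ x).1 = b := by
    by_contra hne
    exact h (cd_off H b hne v)
  have h2 : (H.D.typ x).2 = i := by
    by_contra hne
    exact h (cd_gr H b hne hv)
  exact Prod.ext h1 h2

theorem e_gr' (b : Fin m) {x : H.I} {d : ℕ} (hx : H.D.typ x = (b, d)) :
    H.e b x ∈ W.gr (H.X b) d := by
  have h := H.e_gr b x
  rwa [hx] at h

/-- the isometry from an operator -/
theorem iso_of {o a : Fin m} {d : ℕ} (S : W.coh (H.X a) → W.coh (H.X o))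
    (hS : ∀ v ∈ W.gr (H.X a) d, S v ∈ W.gr (H.X o) d)
    (hψ : ∀ v w, v ∈ W.gr (H.X a) d → w ∈ W.gr (H.X a) d → ps H o (S v) (S w) = ps H a v w)
    {T : Matrix H.I H.I ℂ} (hT : ∀ x i, H.D.typ i = (a, d) → T x i = crd H o x (S (H.e a i)))
    (hT0 : ∀ x i, H.D.typ i ≠ (a, d) → T x i = 0) :
    (∀ x i, T x i ≠ 0 → H.D.typ x = (o, d) ∧ H.D.typ i = (a, d)) ∧
    ∀ i j, H.D.typ i = (a, d) → H.D.typ j = (a, d) →
      (T.transpose * Psi H.D * T) i j = Psi H.D i j := by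
  constructor
  · intro x i h
    have hi : H.D.typ i = (a, d) := by
      by_contra hi
      exact h (hT0 x i hi)
    rw [hT x i hi] at h
    exact ⟨cd_typ H o (hS _ (e_gr' H a hi)) h, hi⟩
  · intro i j hi hj
    have h1 : ∀ x, (Psi H.D * T) x j = H.D.s x * T (H.D.τ x) j := by
      intro x
      rw [Matrix.mul_apply, Finset.sum_eq_single (H.D.τ x)]
      · simp [Psi]
      · intro y _ hy
        simp [Psi, hy]
      · intro h
        exact absurd (Finset.mem_univ _) h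
    have h2 : (T.transpose * Psi H.D * T) i j = ps H o (S (H.e a i)) (S (H.e a j)) := by
      rw [Matrix.mul_assoc, Matrix.mul_apply, ps_crd]
      refine Finset.sum_congr rfl fun x _ => ?_
      rw [h1, Matrix.transpose_apply, hT x i hi, hT _ j hj]
      ring
    rw [h2, hψ _ _ (e_gr' H a hi) (e_gr' H a hj)]
    exact H.e_psi a i j (by rw [hi]) (by rw [hj])

end mat

end

end Pool.Agent.Lib.MP_361a6f_ag.FL.CW
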