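import Pool.Agent.Lib.MP_361a6f_ag.FL.CV.Stat
import Pool.Agent.Lib.MP_361a6f_ag.FL.Z.MidDef

/-!
# Products of abelian varieties and of varieties with only middle cohomology: what is generated by
# the classes of codimension at most 2
-/

open CategoryTheory AlgebraicGeometry MonoidalCategory CartesianMonoidalCategory

universe u v w w'

namespace Pool.Agent.Lib.MP_361a6f_ag.FL

open Pool.Agent.Lib.MP_361a6f_ag.H3 Pool.Agent.Lib.MP_361a6f_ag.SQ
  Pool.Agent.Lib.MP_361a6f_ag.PP

/-- The class `z_*(x) = (pr_2)_* (pr_1^* x ∪ z)` on `X`, for a class `x` on `Y` and a class `z` on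
`Y × X`. -/
noncomputable def EQ.corr {k : Type u} [Field k] (W : CohomologyData.{u, 0, w} k ℂ) {Y X : Sch k}
    (z : W.coh (Y.prod X)) (x : W.coh Y) : W.coh X :=
  W.pf (Sch.pr₂ Y X) (W.cup (W.pb (Sch.pr₁ Y X) x) z)

/-- `Y` is a variety of dimension `e ≤ n` whose cohomology outside of the middle degree is generated
by the divisor class `p`, and there is a combination `z`, with real coefficients, of algebraic
classes on `Y × X` such that `z_*` embeds the classes `x` of `H^e(Y)` with `p x = 0` isometrically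
in the classes `x` of `H^e(X)` with `ξ^(n-e+1) x = 0`, where `X` has the dimension `n` and the class
`ξ`. (Example: a curve `Y`, if `X` contains its Jacobian variety. A Fermat hypersurface or a Kummer
surface `Y`, if `X` is a power of a suitable abelian variety.) -/
structure EQ.Mid {k : Type u} [Field k] (W : CohomologyData.{u, 0, w} k ℂ) (𝒱 : VarietyClass k)
    (X : Sch k) (n : ℕ) (ξ : W.coh X) (Y : Sch k) (e : ℕ) (p : W.coh Y) : Prop where
  mem : 𝒱.mem Y e
  le : e ≤ n
  div : PositiveDivisor W Y e p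
  mid : OnlyMiddle W Y e p
  emb : ∃ z ∈ Submodule.span ℝ {z | W.IsAlg (Y.prod X) e z}, ∀ x, W.Deg Y e x → W.cup p x = 0 →
    W.cup (ξ ^ (n - e + 1)) (EQ.corr W z x) = 0 ∧ ∀ y, W.Deg Y e y → W.cup p y = 0 →
      W.Tr (W.cup (ξ ^ (n - e)) (W.cup (EQ.corr W z x) (EQ.corr W z y))) = W.Tr (W.cup x y)

/-- **Theorem PM.** `Q1` modulo numerical equivalence holds, in all codimensions, for all classes on
the products of copies of an abelian variety `X` and of varieties `Y_1, ..., Y_m` as in `EQ.Mid`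
(`m = 0` is allowed) that are generated by the algebraic classes of codimension at most `2` on these
products. -/
def ThmPM : Prop :=
  ∀ {k : Type u} [Field k] (W : CohomologyData.{u, 0, w} k ℂ) (𝒱 : VarietyClass k)
    (_ : IsWeilCohomology W 𝒱) {k' : Type v} [Field k'] (W' : CohomologyData.{v, 0, w'} k' ℂ)
    (𝒱' : VarietyClass k') (_ : IsWeilCohomology W' 𝒱') (D : EQ.Data W W') (_ : EQ.RedC 𝒱 𝒱' D)
    (_ : EQ.Effective W' D.X' D.g (D.s (.leaf 0) D.ξ))
    {m : ℕ} (Y : Fin m → Sch k) (e : Fin m → ℕ) (p : ∀ a, W.coh (Y a))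
    (_ : ∀ a, EQ.Mid W 𝒱 D.X D.g D.ξ (Y a) (e a) (p a))
    (P : Prd (m + 1)) (η : W.coh (P.obj (Fin.cons D.X Y)))
    (_ : IsPol W (Fin.cons (α := fun a => W.coh (Fin.cons (α := fun _ => Sch k) D.X Y a)) D.ξ p)
      P η) (j : ℕ) (z : W.coh (P.obj (Fin.cons D.X Y)))
    (_ : EQ.MadeF W (Fin.cons D.X Y) (Fin.cons D.g e) P j z)
    (_ : 2 * j ≤ P.dim (Fin.cons D.g e))
    (_ : EQ.NumTrivial W (P.obj (Fin.cons D.X Y))
      (W.cup (η ^ (P.dim (Fin.cons D.g e) - 2 * j + 1)) z))
    (_ : ¬ EQ.NumTrivial W (P.obj (Fin.cons D.X Y)) z),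
    RatPos ((-1) ^ j * W.Tr (W.cup (η ^ (P.dim (Fin.cons D.g e) - 2 * j)) (W.cup z z)))

end Pool.Agent.Lib.MP_361a6f_ag.FL
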