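import Pool.Agent.Lib.MP_361a6f_ag.FL.CW.Stat
import Pool.Agent.Lib.MP_361a6f_ag.FL.PT.StatP

/-!
# Products of abelian varieties and of varieties with only middle cohomology: what is generated by
# the classes of codimension at most 2, and all polarisations in dimension 4
-/

open CategoryTheory AlgebraicGeometry MonoidalCategory CartesianMonoidalCategory

universe u v w w'

namespace Pool.Agent.Lib.MP_361a6f_ag.FL

open Pool.Agent.Lib.MP_361a6f_ag.H3 Pool.Agent.Lib.MP_361a6f_ag.SQ
  Pool.Agent.Lib.MP_361a6f_ag.PP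

/-- **Theorem PN.** Let `P` be a product of copies of an abelian variety `X` and of varieties
`Y_1, ..., Y_m` as in `EQ.Mid` (`m = 0` is allowed). `Q1` modulo numerical equivalence holds, in all
codimensions and for the product polarisations, for all classes on `P` that are generated by the
algebraic classes of codimension at most `2` on such products. If the dimension of `P` is `4`, then
`Q1` modulo numerical equivalence holds for all classes of codimension `2` on `P` and all divisor
classes `L` for which it holds in codimension `1` (all ample classes, by the Hodge index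
theorem). -/
def ThmPN : Prop :=
  ∀ {k : Type u} [Field k] (W : CohomologyData.{u, 0, w} k ℂ) (𝒱 : VarietyClass k)
    (_ : IsWeilCohomology W 𝒱) {k' : Type v} [Field k'] (W' : CohomologyData.{v, 0, w'} k' ℂ)
    (𝒱' : VarietyClass k') (_ : IsWeilCohomology W' 𝒱') (D : EQ.Data W W') (_ : EQ.RedC 𝒱 𝒱' D)
    (_ : EQ.Effective W' D.X' D.g (D.s (.leaf 0) D.ξ))
    {m : ℕ} (Y : Fin m → Sch k) (e : Fin m → ℕ) (p : ∀ a, W.coh (Y a))
    (_ : ∀ a, EQ.Mid W 𝒱 D.X D.g D.ξ (Y a) (e a) (p a)) (P : Prd (m + 1)),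
    (∀ (η : W.coh (P.obj (Fin.cons D.X Y)))
      (_ : IsPol W (Fin.cons (α := fun a => W.coh (Fin.cons (α := fun _ => Sch k) D.X Y a)) D.ξ p)
        P η) (j : ℕ) (z : W.coh (P.obj (Fin.cons D.X Y)))
      (_ : EQ.MadeF W (Fin.cons D.X Y) (Fin.cons D.g e) P j z)
      (_ : 2 * j ≤ P.dim (Fin.cons D.g e))
      (_ : EQ.NumTrivial W (P.obj (Fin.cons D.X Y))
        (W.cup (η ^ (P.dim (Fin.cons D.g e) - 2 * j + 1)) z))
      (_ : ¬ EQ.NumTrivial W (P.obj (Fin.cons D.X Y)) z),
      RatPos ((-1) ^ j * W.Tr (W.cup (η ^ (P.dim (Fin.cons D.g e) - 2 * j)) (W.cup z z)))) ∧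
    (P.dim (Fin.cons D.g e) = 4 → ∀ L : W.coh (P.obj (Fin.cons D.X Y)),
      W.IsAlg (P.obj (Fin.cons D.X Y)) 1 L → EQ.Q1Num W (P.obj (Fin.cons D.X Y)) 4 L 1 →
      EQ.Q1Num W (P.obj (Fin.cons D.X Y)) 4 L 2)

end Pool.Agent.Lib.MP_361a6f_ag.FL
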