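import Pool.Agent.Lib.MP_361a6f_ag.FL.CV.CD
import Pool.Agent.Lib.MP_361a6f_ag.FL.CV.CF
import Pool.Agent.Lib.MP_361a6f_ag.FL.CV.Cb
import Pool.Agent.Lib.MP_361a6f_ag.FL.CV.Cg
import Pool.Agent.Lib.MP_361a6f_ag.FL.CV.Ch
import Pool.Agent.Lib.MP_361a6f_ag.FL.CW.Cc
import Pool.Agent.Lib.MP_361a6f_ag.FL.CW.Cz

/-!
# Theorem PM
-/

universe u v w w'

namespace Pool.Agent.Lib.MP_361a6f_ag.FL

/-- **Theorem PM.** -/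
theorem thmPM : ThmPM.{u, v, w, w'} :=
  CW.cz.{u, v, w, w'} CW.cc.{u, w} (CV.cd.{u, w} CV.ca CV.cb) CV.cg.{u, w} CV.cf.{u, w}
    CV.ch.{u, v, w, w'}

end Pool.Agent.Lib.MP_361a6f_ag.FL
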