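import Pool.Agent.Lib.MP_361a6f_ag.FL.CW.StatN
import Pool.Agent.Lib.MP_361a6f_ag.FL.CW.ThmPM
import Pool.Agent.Lib.MP_361a6f_ag.FL.CW.D4
import Pool.Agent.Lib.MP_361a6f_ag.FL.PT0.Trace

/-!
# Theorem PN
-/

open CategoryTheory AlgebraicGeometry MonoidalCategory CartesianMonoidalCategory

universe u v w w'

set_option autoImplicit false

namespace Pool.Agent.Lib.MP_361a6f_ag.FL

open Pool.Agent.Lib.MP_361a6f_ag.H3 Pool.Agent.Lib.MP_361a6f_ag.SQ
  Pool.Agent.Lib.MP_361a6f_ag.IP2 Pool.Agent.Lib.MP_361a6f_ag.PP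
  Pool.Agent.Lib.MP_361a6f_ag.FL.PTG

/-- `H^0` of all products -/
theorem CW.conn_all {k : Type u} [Field k] {m : ℕ} {W : CohomologyData.{u, 0, w} k ℂ}
    {𝒱 : VarietyClass k} (hW : IsWeilCohomology W 𝒱) {X : Fin m → Sch k} {n : Fin m → ℕ}
    (hX : ∀ a, 𝒱.mem (X a) (n a)) (h : ∀ a, ∀ x ∈ W.gr (X a) 0, ∃ c : ℂ, x = c • (1 : W.coh (X a)))
    (P : Prd m) : ∀ x ∈ W.gr (P.obj X) 0, ∃ c : ℂ, x = c • (1 : W.coh (P.obj X)) := by
  induction P with
  | leaf a => exact h a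
  | prod P Q hP hQ => exact PT0.conn_prod hW (memP hX P) (memP hX Q) hP hQ

/-- **Theorem PN.** -/
theorem thmPN : ThmPN.{u, v, w, w'} := by
  intro k _ W 𝒱 hW k' _ W' 𝒱' hW' D hR hE m Y e p hC P
  refine ⟨fun η hη j z hz hj hp hn =>
    thmPM W 𝒱 hW W' 𝒱' hW' D hR hE Y e p hC P η hη j z hz hj hp hn, fun hd L hL h1 => ?_⟩
  have hmem : ∀ a : Fin (m + 1), 𝒱.mem ((Fin.cons D.X Y : Fin (m + 1) → Sch k) a)
      ((Fin.cons D.g e : Fin (m + 1) → ℕ) a) := by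
    intro a
    refine Fin.cases ?_ (fun a => ?_) a
    · exact hR.mem
    · exact (hC a).mem
  have hconn : ∀ a : Fin (m + 1), ∀ x ∈ W.gr ((Fin.cons D.X Y : Fin (m + 1) → Sch k) a) 0,
      ∃ c : ℂ, x = c • (1 : W.coh ((Fin.cons D.X Y : Fin (m + 1) → Sch k) a)) := by
    intro a
    refine Fin.cases ?_ (fun a => ?_) a
    · exact hR.conn
    · intro x hx
      rcases (hC a).mid.2 0 x (hC a).mid.1.ne hx with h | ⟨r, c, hr, h⟩
      · exact ⟨0, by rw [zero_smul]; exact h⟩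
      · obtain rfl : r = 0 := by omega
        refine ⟨c, ?_⟩
        rw [pow_zero] at h
        exact h
  have hdiv : ∀ a : Fin (m + 1), W.IsAlg ((Fin.cons D.X Y : Fin (m + 1) → Sch k) a) 1
      (Fin.cons (α := fun a => W.coh (Fin.cons (α := fun _ => Sch k) D.X Y a)) D.ξ p a) := by
    intro a
    refine Fin.cases ?_ (fun a => ?_) a
    · exact hR.div.1
    · exact (hC a).div.1
  have hX4 : 𝒱.mem (P.obj (Fin.cons D.X Y)) 4 := by
    have h := memP hmem P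
    rwa [hd] at h
  have hpol := HodgeZ.isPol
    (ξ := Fin.cons (α := fun a => W.coh (Fin.cons (α := fun _ => Sch k) D.X Y a)) D.ξ p) (W := W) P
  have hη := isPol_alg hW hmem hdiv hpol
  have hq : ∀ j ≤ 2, EQ.Q1Num W (P.obj (Fin.cons D.X Y)) 4 (P.pol W
      (Fin.cons (α := fun a => W.coh (Fin.cons (α := fun _ => Sch k) D.X Y a)) D.ξ p)) j := by
    intro j hj z hj' hz hp hn
    have h := thmPM W 𝒱 hW W' 𝒱' hW' D hR hE Y e p hC P _ hpol j z (.alg P j z hj hz)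
    rw [hd] at h
    exact h hj' hp hn
  exact CW.D4.pol hW hX4 (CW.conn_all hW hmem hconn P) hη hL (hq 0 (by norm_num))
    (hq 1 (by norm_num)) (hq 2 le_rfl) h1

end Pool.Agent.Lib.MP_361a6f_ag.FL
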